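import Pool.Agent.H458.AU.Final
import Pool.Agent.H458.RN.Rel
import Pool.Graph.R_pool_sql_team_seeded_63374d34.N874.TF.All

/-!
# The rank conjecture for almost all elliptic curves over a number field after a bounded quadratic twist

Let `F` be ANY number field, and `N(X)` the number of the minimal integral equations
`E : y ^ 2 = x ^ 3 + A x + B` of elliptic curves over `F` of height at most `X`; for `d ∈ 𝓞 F`, `d ≠ 0`, the curve
`y ^ 2 = x ^ 3 + A d ^ 2 x + B d ^ 3` is the quadratic twist `E ^ d`.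

For a natural number `R` and `E` let `C(E, R)` be the class of all the Galois extensions `M / F` of 2-power degree in
which the primes dividing `R` split completely, which are unramified at all the primes of `F` modulo which
`x ^ 3 + A x + B` has a zero, and in which the real places of `F` at which `4 A ^ 3 + 27 B ^ 2` is negative have a
real place above them.

**Theorem.** Let `W ≥ 1`, let `𝒮` be a finite set of nonzero integers of `F` and `ε > 0`. There are a FINITE set `𝒟`
of squarefree natural numbers `D ≡ 1 mod 8 W`, with `1 ∈ 𝒟`, and a multiple `R` of `2 W` and of all `D ∈ 𝒟`, such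
that for all large `X`:

(1) ALL the curves `E` of height at most `X`, with the exception of at most `ε N(X)`, have for
every `d ∈ 𝒮` a `D ∈ 𝒟` with the following properties for ALL `M ∈ C(E ^ d, R)` (`M = F` is one of them): the 2-Selmer
group of `E ^ (d D)` over `M` is zero, its Tate-Shafarevich group over `M` has no element of order two,
the group of the points over `M` is finite of odd order, the rank is `0`; and if `Gal(M / F)` is not cyclic, then the
global root number of `E ^ (d D)` over `M` is `1`, so that the rank has the parity which the functional equation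
and the rank conjecture predict (the parity of the order of the zero of `L(E ^ (d D) / M, s)` at `s = 1`).

(2) The average, over ALL curves `E` of height at most `X`, of the smallest of the ranks over `F` of the twists
`E ^ (d D)`, `D ∈ 𝒟`, is at most `ε`, for every `d ∈ 𝒮`.

(3) Let `ω(X)` be ANY function which tends to infinity. The proportion of the curves `E` of height at most `X` for which
for every `d ∈ 𝒮` there is a squarefree `D ≤ ω(X)`, `D ≡ 1 mod 8 W`, such that `E ^ (d D)` has trivial 2-Selmer group,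
no element of order two in the Tate-Shafarevich group and rank `0` over `F`, tends to `1`.

The root number is computed for all functions `w` on the primes of `M` with three properties of the local root
numbers: the values are signs; `w v = 1` if `v` does not divide `2 (4 A ^ 3 + 27 B ^ 2)`, `(A, B)` the coefficients of
the twist, (good reduction); and `w` is invariant under `Gal(M / F)` (as the curve is defined over `F`). At
the infinite places the local root number is `-1`. The three properties determine the product.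

So for EVERY elliptic curve over `F`, up to a proportion `ε`, one of finitely many quadratic twists, which do not
depend on the curve, has over all the fields of an infinite class at the same time rank zero, and the sign which
the rank conjecture demands; the twist is as small as one likes for 100 percent of the curves. What was known in the
library and in this run: positive proportions (`MP_02f36d_nt.EveryBaseFieldTwoExtensions`, for one given `M`), and the
Selmer part (`MP_7cad78_nt.FiniteSetsOfTwists`, on the finiteness of the Tate-Shafarevich group, whose proof is used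
here). For one curve the existence of SOME twist with trivial 2-Selmer group over `F` is a theorem of Mazur and Rubin
(if it has no point of order two).

Proof. By a theorem of the library (after Bhargava, Gross, Bhargava-Shankar, Mazur-Rubin; helper459 in this run for
all residue classes) `E` has such a twist by a product of primes in `S` if `E` is good at all the primes `q ∈ S` (its
cubic has exactly one zero modulo one prime of degree one over `q`, and none modulo the others) and not in an exceptional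
set with at most `C 2 ^ (- # S)` of these `E` as elements, `C` independent of `S`. The new idea is to choose `S`
depending on `E`: take `k` disjoint blocks of primes such that the expected number of good primes in each block is large.
All but few `E` have at least `9 / 10` of this number of good primes in every block; if `E` is exceptional for ALL the
transversals `S` of its good primes, then it is counted very often, and the number of these `E` is at most
`C (5 / 9) ^ k N(X)`. For (2) this is combined with the bound for the average of `2 ^ rank` of all curves (helper459),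
also for the twists by `d`. Parts of the proof are by helpers 294, 337, 348, 350, 549, 650, 653, 665, 747, 975 and 980.
The root number: the product over the primes is `(-1) ^ n`, where `n` is the number of the primes `v` with `w v = -1`
which are stable under the 2-group `Gal(M / F)`. Such a `v` is not over a ramified prime, where the twist
has good reduction: the cubic has no zero modulo a ramified prime, so that its discriminant is not zero modulo this
prime, which does not divide `D`. So the Galois group is the decomposition group of an unramified prime, and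
cyclic. The number of the infinite places of `M` is even.
-/

set_option autoImplicit false
set_option linter.all false

open Polynomial NumberField IsDedekindDomain Filter
open scoped Classical

namespace Pool.Agent.Results.MP_ae0bd0_nt.AlmostAllCurves

open Pool.Agent.N874.PP (sW)
open Pool.Agent.TH115.GD (Pt)
open Pool.Agent.N874.QM (SelC ShaC)

section defs

variable {F : Type} [Field F] [NumberField F]

variable (F) in
/-- The pairs `(A, B)` of height at most `X` such that `y ^ 2 = x ^ 3 + A x + B` is a minimal equation of an elliptic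
curve. -/
def Curves (X : ℝ) : Set (𝓞 F × 𝓞 F) :=
  {p | 4 * p.1 ^ 3 + 27 * p.2 ^ 2 ≠ 0 ∧
    (∀ 𝔭 : Ideal (𝓞 F), 𝔭.IsPrime → 𝔭 ≠ ⊥ → ¬ (p.1 ∈ 𝔭 ^ 4 ∧ p.2 ∈ 𝔭 ^ 6)) ∧
    ∀ σ : F →+* ℂ, 4 * ‖σ (p.1 : F)‖ ^ 3 ≤ X ∧ 27 * ‖σ (p.2 : F)‖ ^ 2 ≤ X}

/-- The quadratic twist by `d`. -/
def twist (p : 𝓞 F × 𝓞 F) (d : 𝓞 F) : 𝓞 F × 𝓞 F := (p.1 * d ^ 2, p.2 * d ^ 3)

/-- The curve `y ^ 2 = x ^ 3 + A x + B` over the extension `M` of `F`, `p = (A, B)`. -/
noncomputable def curve (M : Type) [Field M] [Algebra F M] (p : 𝓞 F × 𝓞 F) : WeierstrassCurve M :=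
  sW (algebraMap F M (p.1 : F)) (algebraMap F M (p.2 : F))

/-- The rank over `F`. -/
noncomputable def rank (p : 𝓞 F × 𝓞 F) : ℕ := Module.finrank ℤ (Pt (sW (p.1 : F) (p.2 : F)) F)

/-- The smallest of the ranks over `F` of the twists by the numbers in `𝒟`. -/
noncomputable def minRank (𝒟 : Finset ℕ) (p : 𝓞 F × 𝓞 F) : ℕ :=
  sInf {r : ℕ | ∃ D ∈ 𝒟, r = rank (twist p (D : 𝓞 F))}

/-- `M / F` is unramified at `v`. -/
def Unramified (v : HeightOneSpectrum (𝓞 F)) (M : Type) [Field M] [NumberField M] [Algebra F M] : Prop :=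
  ∀ w : HeightOneSpectrum (𝓞 M), v.asIdeal.map (algebraMap (𝓞 F) (𝓞 M)) ≤ w.asIdeal →
    ¬ v.asIdeal.map (algebraMap (𝓞 F) (𝓞 M)) ≤ w.asIdeal ^ 2

/-- `v` splits completely in `M`: it is unramified and all integers of `M` are congruent to integers of
`F` modulo every prime over `v`. -/
def SplitsCompletely (v : HeightOneSpectrum (𝓞 F)) (M : Type) [Field M] [NumberField M]
    [Algebra F M] : Prop :=
  Unramified v M ∧
  ∀ w : HeightOneSpectrum (𝓞 M), v.asIdeal.map (algebraMap (𝓞 F) (𝓞 M)) ≤ w.asIdeal →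
    ∀ y : 𝓞 M, ∃ c : 𝓞 F, y - algebraMap (𝓞 F) (𝓞 M) c ∈ w.asIdeal

/-- The extensions `M / F` which belong to the integer `R` and the curve `p = (A, B)`. -/
structure InClass (R : ℕ) (p : 𝓞 F × 𝓞 F) (M : Type) [Field M] [NumberField M] [Algebra F M] : Prop where
  galois : IsGalois F M
  degree : ∃ n : ℕ, Module.finrank F M = 2 ^ n
  split : ∀ v : HeightOneSpectrum (𝓞 F), (R : 𝓞 F) ∈ v.asIdeal → SplitsCompletely v M
  unramified : ∀ v : HeightOneSpectrum (𝓞 F), (∃ t : 𝓞 F, t ^ 3 + p.1 * t + p.2 ∈ v.asIdeal) →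
    Unramified v M
  real : ∀ σ : F →+* ℝ, 0 < σ ((4 * p.1 ^ 3 + 27 * p.2 ^ 2 : 𝓞 F) : F) ∨
    ∃ ρ : M →+* ℝ, ρ.comp (algebraMap F M) = σ

/-- The curve `p` has trivial 2-Selmer group, no element of order two in the Tate-Shafarevich group, and
finitely many points over `M`, an odd number. -/
structure Trivial (M : Type) [Field M] [NumberField M] [Algebra F M] (p : 𝓞 F × 𝓞 F) : Prop where
  selmer : SelC (curve M p)
  sha : ShaC (curve M p)
  finite : Finite (Pt (curve M p) M)
  odd : Odd (Nat.card (Pt (curve M p) M))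

/-- The properties of the local root numbers at the primes `v` of `M` of the curve `p = (A, B)` over `M` which we
use: they are signs, they are `1` if `v` does not divide `2` and `4 A ^ 3 + 27 B ^ 2`, and they are the same for
primes which are conjugate over `F`. -/
structure LocalRootNumbers (p : 𝓞 F × 𝓞 F) (M : Type) [Field M] [NumberField M] [Algebra F M]
    (w : HeightOneSpectrum (𝓞 M) → ℤ) : Prop where
  sign : ∀ v, w v = 1 ∨ w v = -1
  good : ∀ v : HeightOneSpectrum (𝓞 M), (2 : 𝓞 M) ∉ v.asIdeal →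
    algebraMap (𝓞 F) (𝓞 M) (4 * p.1 ^ 3 + 27 * p.2 ^ 2) ∉ v.asIdeal → w v = 1
  conj : ∀ (σ : M ≃ₐ[F] M) (v v' : HeightOneSpectrum (𝓞 M)),
    (∀ x : M, v'.valuation M x = v.valuation M (σ x)) → w v' = w v

/-- The global root number of an elliptic curve: the product of the local root numbers at the primes and
of `-1` for every infinite place. -/
noncomputable def rootNumber (M : Type) [Field M] [NumberField M]
    (w : HeightOneSpectrum (𝓞 M) → ℤ) : ℤ :=
  (-1) ^ Nat.card (InfinitePlace M) * ∏ᶠ v, w v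

/-- The parity conjecture for the curve `p` over `M`, and the finiteness of the product. -/
def Parity (M : Type) [Field M] [NumberField M] [Algebra F M] (p : 𝓞 F × 𝓞 F) : Prop :=
  ∀ w : HeightOneSpectrum (𝓞 M) → ℤ, LocalRootNumbers p M w →
    {v | w v ≠ 1}.Finite ∧ (-1) ^ Module.finrank ℤ (Pt (curve M p) M) = rootNumber M w

/-- The properties over all the fields in the class of the curve `p₀` of the curve `p`. -/
def Good (R : ℕ) (p₀ p : 𝓞 F × 𝓞 F) : Prop :=
  ∀ (M : Type) [Field M] [NumberField M] [Algebra F M], InClass R p₀ M →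
    Trivial M p ∧ (¬ IsCyclic (M ≃ₐ[F] M) → Parity M p)

end defs

section pf

open Pool.Agent.H459.UF (Unr Deg1 GoodM)
open Pool.Agent.H458.AU (ClsM Tw twp)
open Pool.Agent.H458.RN

variable {F : Type} [Field F] [NumberField F]

theorem unr_of {M : Type} [Field M] [NumberField M] [Algebra F M] {v : HeightOneSpectrum (𝓞 F)}
    (h : Unramified v M) : Unr F M v := fun P hP =>
  h P (hP.trans (Ideal.pow_le_self two_ne_zero)) hP

theorem of_unr {M : Type} [Field M] [NumberField M] [Algebra F M] {v : HeightOneSpectrum (𝓞 F)}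
    (h : Unr F M v) : Unramified v M := fun P _ hP => h P hP

/-- A cubic without zeros over a finite field has discriminant different from zero. -/
theorem zero_of_disc {k : Type} [Field k] [Finite k] {a b : k} (h : 4 * a ^ 3 + 27 * b ^ 2 = 0) :
    ∃ t : k, t ^ 3 + a * t + b = 0 := by
  by_cases ha : a = 0
  · subst ha
    by_cases h3 : (3 : k) = 0
    · haveI : CharP k 3 := by
        obtain ⟨p, hp⟩ := CharP.exists k
        have h4 : p ∣ 3 := (CharP.cast_eq_zero_iff k p 3).1 (by exact_mod_cast h3)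
        rcases (Nat.dvd_prime Nat.prime_three).1 h4 with h5 | h5
        · subst h5
          exact absurd rfl (CharP.char_ne_one k 1)
        · subst h5
          exact hp
      haveI : Fact (Nat.Prime 3) := ⟨Nat.prime_three⟩
      obtain ⟨t, ht⟩ := (Finite.injective_iff_surjective.1 (frobenius_inj k 3)) (-b)
      refine ⟨t, ?_⟩
      rw [frobenius_def] at ht
      rw [ht]
      ring
    · have hb : b = 0 := by
        have h4 : (27 : k) ≠ 0 := by
          have : (27 : k) = 3 ^ 3 := by norm_num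
          rw [this]
          exact pow_ne_zero _ h3
        have h5 : (27 : k) * b ^ 2 = 0 := by linear_combination h
        rcases mul_eq_zero.1 h5 with h6 | h6
        · exact absurd h6 h4
        · exact pow_eq_zero_iff (two_ne_zero) |>.1 h6
      exact ⟨0, by rw [hb]; ring⟩
  · refine ⟨3 * b / a, ?_⟩
    field_simp
    linear_combination b * h

theorem parity_of {R : ℕ} (h2R : 2 ∣ R) {p : 𝓞 F × 𝓞 F} {D : ℕ} (hDR : D ∣ R) (hD0 : D ≠ 0)
    (hdis : 4 * p.1 ^ 3 + 27 * p.2 ^ 2 ≠ 0)
    (M : Type) [Field M] [NumberField M] [Algebra F M] (hM : InClass R p M)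
    (hT : Trivial M (twist p (D : 𝓞 F)))
    (hnc : ¬ IsCyclic (M ≃ₐ[F] M)) : Parity M (twist p (D : 𝓞 F)) := by
  intro w hw
  haveI := hM.galois
  obtain ⟨n, hn⟩ := hM.degree
  haveI : FiniteDimensional F M := Module.finite_of_finrank_pos (by rw [hn]; positivity)
  have hcardG : Nat.card (M ≃ₐ[F] M) = 2 ^ n := by
    rw [IsGalois.card_aut_eq_finrank, hn]
  have hn2 : 2 ≤ n := by
    by_contra hlt
    apply hnc
    haveI : Fact (Nat.Prime 2) := ⟨Nat.prime_two⟩
    obtain rfl | rfl : n = 0 ∨ n = 1 := by omega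
    · rw [pow_zero, Nat.card_eq_one_iff_unique] at hcardG
      haveI := hcardG.1
      exact isCyclic_of_subsingleton
    · rw [pow_one] at hcardG
      exact isCyclic_of_prime_card hcardG
  have hdd : 4 * (twist p (D : 𝓞 F)).1 ^ 3 + 27 * (twist p (D : 𝓞 F)).2 ^ 2 =
      (D : 𝓞 F) ^ 6 * (4 * p.1 ^ 3 + 27 * p.2 ^ 2) := by
    unfold twist
    ring
  have hd' : algebraMap (𝓞 F) (𝓞 M) (4 * (twist p (D : 𝓞 F)).1 ^ 3 +
      27 * (twist p (D : 𝓞 F)).2 ^ 2) ≠ 0 := by
    intro h
    rw [hdd] at h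
    have h1 := NumberField.RingOfIntegers.algebraMap.injective F M (h.trans (map_zero _).symm)
    exact mul_ne_zero (pow_ne_zero 6 (Nat.cast_ne_zero.2 hD0)) hdis h1
  have hfin : {v | w v ≠ 1}.Finite := by
    have h1 : {v : HeightOneSpectrum (𝓞 M) | 2 * algebraMap (𝓞 F) (𝓞 M)
        (4 * (twist p (D : 𝓞 F)).1 ^ 3 + 27 * (twist p (D : 𝓞 F)).2 ^ 2) ∈ v.asIdeal}.Finite := by
      have h2 : Ideal.span {2 * algebraMap (𝓞 F) (𝓞 M)
          (4 * (twist p (D : 𝓞 F)).1 ^ 3 + 27 * (twist p (D : 𝓞 F)).2 ^ 2)} ≠ ⊥ := by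
        rw [Ne, Ideal.span_singleton_eq_bot]
        exact mul_ne_zero two_ne_zero hd'
      refine (Ideal.finite_factors h2).subset ?_
      intro v hv
      rw [Set.mem_setOf_eq, Ideal.dvd_span_singleton]
      exact hv
    refine h1.subset ?_
    intro v hv
    by_contra hcon
    apply hv
    have h3 : ¬ ((2 : 𝓞 M) * algebraMap (𝓞 F) (𝓞 M)
        (4 * (twist p (D : 𝓞 F)).1 ^ 3 + 27 * (twist p (D : 𝓞 F)).2 ^ 2) ∈ v.asIdeal) := hcon
    rw [v.isPrime.mul_mem_iff_mem_or_mem, not_or] at h3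
    exact hw.good v h3.1 h3.2
  refine ⟨hfin, ?_⟩
  have hprod := prod_eq F hn w hw.sign hfin hw.conj
  have hempty : {v | w v = -1 ∧ Fixed F v} = ∅ := by
    rw [Set.eq_empty_iff_forall_notMem]
    rintro v ⟨hv1, hv2⟩
    obtain ⟨u, hu⟩ := Pool.Agent.N874.TF.exists_bel F v
    haveI hl : v.asIdeal.LiesOver u.asIdeal := ⟨by
      ext y
      rw [Ideal.mem_comap]
      exact hu y⟩
    have hle : u.asIdeal.map (algebraMap (𝓞 F) (𝓞 M)) ≤ v.asIdeal := by
      rw [Ideal.map_le_iff_le_comap]
      intro y hy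
      exact (hu y).1 hy
    -- an unramified prime
    have hunr : ∀ h : Unramified u M, False := by
      intro h
      apply hnc
      refine cyclic_of_fixed (u := u) (v := v) ?_ hv2
      exact Ideal.ramificationIdx'_spec (by rw [pow_one]; exact hle) (h v hle)
    by_cases hR : (R : 𝓞 F) ∈ u.asIdeal
    · exact hunr (hM.split u hR).1
    have hD : (D : 𝓞 F) ∉ u.asIdeal := by
      intro h3
      apply hR
      obtain ⟨m, hm'⟩ := hDR
      rw [hm', Nat.cast_mul]
      exact Ideal.mul_mem_right _ _ h3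
    have h3 : (2 : 𝓞 M) ∉ v.asIdeal := by
      intro h4
      apply hR
      obtain ⟨m, hm'⟩ := h2R
      rw [hm', Nat.cast_mul]
      refine Ideal.mul_mem_right _ _ ?_
      rw [hu, Nat.cast_ofNat, map_ofNat]
      exact h4
    have hnz : ¬ ∃ t : 𝓞 F, t ^ 3 + p.1 * t + p.2 ∈ u.asIdeal := fun h => hunr (hM.unramified u h)
    have hdu : 4 * p.1 ^ 3 + 27 * p.2 ^ 2 ∉ u.asIdeal := by
      intro h4
      apply hnz
      haveI : u.asIdeal.IsMaximal := u.isMaximal
      letI : Field (𝓞 F ⧸ u.asIdeal) := Ideal.Quotient.field u.asIdeal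
      haveI : Finite (𝓞 F ⧸ u.asIdeal) := inferInstance
      obtain ⟨t, ht⟩ := zero_of_disc (k := 𝓞 F ⧸ u.asIdeal) (a := Ideal.Quotient.mk u.asIdeal p.1)
        (b := Ideal.Quotient.mk u.asIdeal p.2) (by
          have h5 := Ideal.Quotient.eq_zero_iff_mem.2 h4
          simpa only [map_add, map_mul, map_pow, map_ofNat] using h5)
      obtain ⟨t, rfl⟩ := Ideal.Quotient.mk_surjective t
      refine ⟨t, Ideal.Quotient.eq_zero_iff_mem.1 ?_⟩
      simpa only [map_add, map_mul, map_pow] using ht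
    have h5 : algebraMap (𝓞 F) (𝓞 M) (4 * (twist p (D : 𝓞 F)).1 ^ 3 +
        27 * (twist p (D : 𝓞 F)).2 ^ 2) ∉ v.asIdeal := by
      intro h6
      rw [← hu, hdd] at h6
      rcases u.isPrime.mem_or_mem h6 with h7 | h7
      · exact hD (u.isPrime.mem_of_pow_mem _ h7)
      · exact hdu h7
    rw [hw.good v h3 h5] at hv1
    norm_num at hv1
  have hr : Module.finrank ℤ (Pt (curve M (twist p (D : 𝓞 F))) M) = 0 := by
    haveI := hT.finite
    refine Module.finrank_eq_zero_of_rank_eq_zero ?_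
    rw [rank_eq_zero_iff]
    intro x
    obtain ⟨m, hm, hx⟩ := (isOfFinAddOrder_of_finite x).exists_nsmul_eq_zero
    refine ⟨(m : ℤ), by exact_mod_cast hm.ne', ?_⟩
    rw [natCast_zsmul]
    exact hx
  rw [hr, pow_zero, rootNumber, hprod, hempty, Set.ncard_empty, pow_zero, mul_one]
  exact ((even_infinite (F := F) hn hn2).neg_one_pow).symm

theorem good_of {R : ℕ} {𝒟 : Finset ℕ} (h2R : 2 ∣ R) (hD' : ∀ D ∈ 𝒟, Squarefree D ∧ D ∣ R)
    {p : 𝓞 F × 𝓞 F} (hdis : 4 * p.1 ^ 3 + 27 * p.2 ^ 2 ≠ 0) {d : 𝓞 F} (hd : d ≠ 0)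
    (h : Tw R 𝒟 (twp p d)) :
    ∃ D ∈ 𝒟, Good R (twist p d) (twist (twist p d) (D : 𝓞 F)) := by
  obtain ⟨D, hD, h⟩ := h
  refine ⟨D, hD, fun M _ _ _ hM => ?_⟩
  haveI := hM.galois
  obtain ⟨n, hn⟩ := hM.degree
  obtain ⟨h1, h2, h3, h4⟩ := h M n hn ⟨fun v hv => ⟨unr_of (hM.split v hv).1, (hM.split v hv).2⟩,
    fun v hv => unr_of (hM.unramified v hv), hM.real⟩
  have hT : Trivial M (twist (twist p d) (D : 𝓞 F)) := ⟨h1, h2, h3, h4⟩
  have hdis' : 4 * (twist p d).1 ^ 3 + 27 * (twist p d).2 ^ 2 ≠ 0 := by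
    have e : 4 * (twist p d).1 ^ 3 + 27 * (twist p d).2 ^ 2 = d ^ 6 * (4 * p.1 ^ 3 + 27 * p.2 ^ 2) := by
      unfold twist
      ring
    rw [e]
    exact mul_ne_zero (pow_ne_zero _ hd) hdis
  exact ⟨hT, fun hnc => parity_of h2R (hD' D hD).2 (hD' D hD).1.ne_zero hdis' M hM hT hnc⟩

end pf

theorem part1 (F : Type) [Field F] [NumberField F] (W : ℕ) (hW : 0 < W) (𝒮 : Finset (𝓞 F))
    (h𝒮 : ∀ d ∈ 𝒮, d ≠ 0) (ε : ℝ) (hε : 0 < ε) :
    (∀ X : ℝ, (Curves F X).Finite) ∧
    ∃ (R : ℕ) (𝒟 : Finset ℕ), 0 < R ∧ 2 * W ∣ R ∧ 1 ∈ 𝒟 ∧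
      (∀ D ∈ 𝒟, Squarefree D ∧ D ≡ 1 [MOD 8 * W] ∧ D ∣ R) ∧
      (∀ p : 𝓞 F × 𝓞 F, InClass R p F) ∧
      ∀ᶠ X : ℝ in atTop, 0 < (Curves F X).ncard ∧
        (({p ∈ Curves F X | ¬ ∀ d ∈ 𝒮, ∃ D ∈ 𝒟, Good R (twist p d)
          (twist (twist p d) (D : 𝓞 F))}.ncard : ℝ) ≤ ε * ((Curves F X).ncard : ℝ)) ∧
        ∀ d ∈ 𝒮, ∑ᶠ (p : 𝓞 F × 𝓞 F) (_ : p ∈ Curves F X), (minRank 𝒟 (twist p d) : ℝ) ≤
          ε * ((Curves F X).ncard : ℝ) := by
  have heq : ∀ X, Curves F X = {p : 𝓞 F × 𝓞 F | Pool.Agent.N783.PF.Crv X p} := by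
    intro X
    ext p
    exact ⟨fun h => ⟨h.1, h.2.1, h.2.2⟩, fun h => ⟨h.disc, h.min, h.ht⟩⟩
  have hfin : ∀ X : ℝ, (Curves F X).Finite := by
    intro X
    rw [heq]
    exact Pool.Agent.N61.PF.crv_finite Pool.Agent.N490.PF.pts X
  obtain ⟨R, 𝒟, hR, hWR, h1, hD, Y₀, hY⟩ := Pool.Agent.H458.AU.final F (2 * W) (by omega) 𝒮 h𝒮 ε hε
  have h2R : 2 ∣ R := dvd_of_mul_right_dvd hWR
  refine ⟨hfin, R, 𝒟, hR, hWR, h1, fun D hD' => ⟨(hD D hD').1, ?_, (hD D hD').2.2⟩, fun p => ?_, ?_⟩
  · have h2 : D ≡ 1 [MOD 8 * (2 * W)] := (hD D hD').2.1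
    exact h2.of_dvd (Nat.mul_dvd_mul_left 8 (Nat.dvd_mul_left W 2))
  · have h2 := Pool.Agent.H458.AU.cls_self R p
    exact ⟨inferInstance, ⟨0, by rw [Module.finrank_self, pow_zero]⟩, fun v hv =>
      ⟨of_unr (h2.spl v hv).1, (h2.spl v hv).2⟩, fun v hv => of_unr (h2.unr v hv), h2.real⟩
  filter_upwards [eventually_ge_atTop Y₀] with X hX
  obtain ⟨h2, h3, h4⟩ := hY X hX
  rw [← heq] at h2 h3 h4
  refine ⟨h2, ?_, fun d hd => ?_⟩
  · refine le_trans ?_ h3
    have hsub : {p ∈ Curves F X | ¬ ∀ d ∈ 𝒮, ∃ D ∈ 𝒟, Good R (twist p d)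
        (twist (twist p d) (D : 𝓞 F))} ⊆
        {p : 𝓞 F × 𝓞 F | Pool.Agent.N783.PF.Crv X p ∧
          ∃ d ∈ 𝒮, ¬ Pool.Agent.H458.AU.Tw R 𝒟 (Pool.Agent.H458.AU.twp p d)} := by
      rintro p ⟨hp, h⟩
      rw [heq] at hp
      refine ⟨hp, ?_⟩
      by_contra hcon
      push Not at hcon
      exact h fun d hd => good_of h2R (fun D hD' => ⟨(hD D hD').1, (hD D hD').2.2⟩) hp.disc (h𝒮 d hd)
        (hcon d hd)
    have := Set.ncard_le_ncard hsub ((hfin X).subset fun p hp => by
      rw [heq]
      exact hp.1)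
    exact_mod_cast this
  · rw [finsum_mem_eq_finite_toFinset_sum _ (hfin X)]
    refine h4 (hfin X).toFinset (fun p hp => ?_) d hd
    have := (hfin X).mem_toFinset.1 hp
    rwa [heq] at this

/-- **The rank conjecture for almost all elliptic curves over a number field after a bounded twist.** For every
`ε > 0` there are a finite set `𝒟` of squarefree numbers and a number `R` such that for all but
a proportion `ε` of the curves `p` and all `d ∈ 𝒮` one of the twists of `p ^ d` by the numbers `D ∈ 𝒟`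
has, over ALL the extensions `M / F` in the class of `p ^ d` and `R`, a trivial 2-Selmer group, no element of
order two in the Tate-Shafarevich group, finitely many points, and satisfies the parity conjecture over `M` if
`Gal(M / F)` is not cyclic; the average over all `p` of the smallest rank over `F` of these twists is at most `ε`.
For every `ω` which tends to infinity, for 100 percent of the curves `p` there are for all `d ∈ 𝒮` such `D ≤ ω(X)`
such that the twist of `p ^ d` by `D` has rank `0` over `F`, and a trivial 2-Selmer group. -/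
theorem result (F : Type) [Field F] [NumberField F] (W : ℕ) (hW : 0 < W) (𝒮 : Finset (𝓞 F))
    (h𝒮 : ∀ d ∈ 𝒮, d ≠ 0) :
    (∀ X : ℝ, (Curves F X).Finite) ∧
    -- one finite set of twists for all but `ε` of all the curves
    (∀ ε : ℝ, 0 < ε → ∃ (R : ℕ) (𝒟 : Finset ℕ), 0 < R ∧ 2 * W ∣ R ∧ 1 ∈ 𝒟 ∧
      (∀ D ∈ 𝒟, Squarefree D ∧ D ≡ 1 [MOD 8 * W] ∧ D ∣ R) ∧
      (∀ p : 𝓞 F × 𝓞 F, InClass R p F) ∧
      ∀ᶠ X : ℝ in atTop, 0 < (Curves F X).ncard ∧
        (({p ∈ Curves F X | ¬ ∀ d ∈ 𝒮, ∃ D ∈ 𝒟, Good R (twist p d)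
          (twist (twist p d) (D : 𝓞 F))}.ncard : ℝ) ≤ ε * ((Curves F X).ncard : ℝ)) ∧
        ∀ d ∈ 𝒮, ∑ᶠ (p : 𝓞 F × 𝓞 F) (_ : p ∈ Curves F X), (minRank 𝒟 (twist p d) : ℝ) ≤
          ε * ((Curves F X).ncard : ℝ)) ∧
    -- 100 percent of the curves have a twist by a number below any function which tends to infinity
    ∀ ω : ℝ → ℝ, Tendsto ω atTop atTop →
      Tendsto (fun X : ℝ => ({p ∈ Curves F X | ∀ d ∈ 𝒮, ∃ D : ℕ, Squarefree D ∧ D ≡ 1 [MOD 8 * W] ∧
        (D : ℝ) ≤ ω X ∧ Trivial F (twist (twist p d) (D : 𝓞 F)) ∧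
        rank (twist (twist p d) (D : 𝓞 F)) = 0}.ncard : ℝ) / ((Curves F X).ncard : ℝ)) atTop (nhds 1) := by
  have hfin : ∀ X : ℝ, (Curves F X).Finite := (part1 F W hW 𝒮 h𝒮 1 one_pos).1
  refine ⟨hfin, fun ε hε => (part1 F W hW 𝒮 h𝒮 ε hε).2, fun ω hω => ?_⟩
  rw [Metric.tendsto_atTop]
  intro ε hε
  obtain ⟨-, R, 𝒟, hR, hWR, h1, hD, hcl, hX⟩ := part1 F W hW 𝒮 h𝒮 (ε / 2) (half_pos hε)
  obtain ⟨m, hm⟩ : ∃ m : ℕ, ∀ D ∈ 𝒟, D ≤ m := ⟨𝒟.sup id, fun D hD => Finset.le_sup (f := id) hD⟩
  obtain ⟨X₀, hX₀⟩ := eventually_atTop.1 (hX.and (hω.eventually_ge_atTop (m : ℝ)))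
  refine ⟨X₀, fun X hXX => ?_⟩
  obtain ⟨⟨hpos, hbad, -⟩, hωX⟩ := hX₀ X hXX
  obtain ⟨G, hG⟩ : ∃ G : Set (𝓞 F × 𝓞 F), G = {p ∈ Curves F X | ∀ d ∈ 𝒮, ∃ D : ℕ, Squarefree D ∧
    D ≡ 1 [MOD 8 * W] ∧ (D : ℝ) ≤ ω X ∧ Trivial F (twist (twist p d) (D : 𝓞 F)) ∧
    rank (twist (twist p d) (D : 𝓞 F)) = 0} := ⟨_, rfl⟩
  obtain ⟨B, hB⟩ : ∃ B : Set (𝓞 F × 𝓞 F), B = {p ∈ Curves F X | ¬ ∀ d ∈ 𝒮, ∃ D ∈ 𝒟,
    Good R (twist p d) (twist (twist p d) (D : 𝓞 F))} := ⟨_, rfl⟩
  rw [← hG]
  rw [← hB] at hbad
  have hsub : Curves F X ⊆ G ∪ B := by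
    intro p hp
    by_cases h : ∀ d ∈ 𝒮, ∃ D ∈ 𝒟, Good R (twist p d) (twist (twist p d) (D : 𝓞 F))
    · left
      rw [hG]
      refine ⟨hp, fun d hd => ?_⟩
      obtain ⟨D, hD1, h2⟩ := h d hd
      have h3 := (h2 F (hcl _)).1
      refine ⟨D, (hD D hD1).1, (hD D hD1).2.1, ?_, h3, Pool.Agent.H458.AU.rk_zero h3.finite⟩
      exact le_trans (by exact_mod_cast hm D hD1) hωX
    · right
      rw [hB]
      exact ⟨hp, h⟩
  have hGf : G.Finite := (hfin X).subset (by rw [hG]; exact fun p hp => hp.1)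
  have hBf : B.Finite := (hfin X).subset (by rw [hB]; exact fun p hp => hp.1)
  have c1 := Set.ncard_le_ncard hsub (hGf.union hBf)
  have c2 := Set.ncard_union_le G B
  have c3 := Set.ncard_le_ncard (show G ⊆ Curves F X by rw [hG]; exact fun p hp => hp.1) (hfin X)
  obtain ⟨N, hN⟩ : ∃ N : ℝ, N = ((Curves F X).ncard : ℝ) := ⟨_, rfl⟩
  have hN0 : 0 < N := by rw [hN]; exact_mod_cast hpos
  have c4 : N ≤ G.ncard + B.ncard := by rw [hN]; exact_mod_cast c1.trans c2
  have c5 : (G.ncard : ℝ) ≤ N := by rw [hN]; exact_mod_cast c3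
  rw [← hN] at hbad ⊢
  rw [Real.dist_eq, abs_sub_lt_iff]
  constructor
  · have : (G.ncard : ℝ) / N ≤ 1 := (div_le_one hN0).2 c5
    linarith
  · have : 1 - ε / 2 ≤ (G.ncard : ℝ) / N := by
      rw [le_div_iff₀ hN0]
      linarith
    linarith

end Pool.Agent.Results.MP_ae0bd0_nt.AlmostAllCurves
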