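import Pool.Agent.H467.GK.Asm
import Pool.Agent.H467.GK.Dra
import Pool.Agent.H467.GK.Drb
import Pool.Agent.H467.GK.Drc

/-!
# Twists of an arbitrary elliptic curve over an arbitrary global function field of characteristic two

Let `K` be any global function field of characteristic two (of any genus, with any number of rational
places). Every elliptic curve over `K` with `j ≠ 0` has the form
`E_a : y ^ 2 + x y = x ^ 3 + a x ^ 2 + b` with `b = 1 / j`, and the curves `E_{a₀ + a}`, `a ∈ K`, are the
twists of `E_{a₀}` by the quadratic extensions `z ^ 2 + z = a` of `K`.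

Theorem. There is a finite set `S₁` of places of `K` with the following property. Let `S` be any
finite set of places which contains `S₁`, let `b` be transcendental over the constants (so that
`E_{a₀}` is not isotrivial), without zeros and poles outside `S`, and let `a₀` be without poles outside
`S`. Let `V_N` be the (finite) set of the `a ∈ K` with poles of order at most `N` at the places of `S` and
no other poles; the number of its elements tends to infinity. If `b` is not a square in `K` then for
every `c < P_m`, `m = # S - 1`, and for all large `N`, at least `c * # V_N` elements `a` of `V_N` have the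
property that `E_{a₀ + a}(K)` is finite, of odd order, and the 2-primary part of the Tate-Shafarevich
group of `E_{a₀ + a}` over `K` is trivial. Here `P_m = C(m + 1, 2) 2 ^ (-m) ∏_{i < m} (1 - 2 ^ (-i))`, a
positive number which depends only on `m`. If `b` is a square then `E_{a₀ + a}(K)` is finite for as
many `a`.

By the known theorem of Artin, Tate, Milne, Kato and Trihan (for the characteristic `p = 2` itself)
these curves satisfy the conjecture of Birch and Swinnerton-Dyer (if `b` is a square because the
conjecture is known to be invariant under isogenies). So for every elliptic curve over a global function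
field of characteristic two which is not isotrivial and every large finite set of places the conjecture
is true, with rank zero, for a positive proportion of the twists which are unramified outside this
set.

The proof. Multiplication by two is the product of the Frobenius `F : E → E ^ (2)` and the
Verschiebung `V`; the descent is done with cocycles of `Gal(Sep K / K)`, which gives a class `α` in
`K / {z ^ 2 + z}` and, if it is trivial, a class `d` in `K^* / K^*2`. If `a` has large poles modulo
`z ^ 2 + z` at all places of `S`, then the local conditions say that `α` is, at each of these places,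
`0` or `a`, and that `d` is a norm from the extension `z ^ 2 + z = a`. If `S` is large then `α` is
determined by its local components (there are no unramified quadratic extensions of `K` in which all
places of `S` split) and `d` is an `S`-unit. By the residue theorem everything is expressed by the
matrix of the numbers `Tr Res (a dlog u_i)` at the places of `S`, where the `u_i` are a basis of the
`S`-units modulo squares. These matrices are equidistributed among the matrices over `F_2` with zero
row sums, and the 2-Selmer group is trivial for all `a` with a matrix of a certain kind, of which there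
are exactly `P_m 2 ^ (m ^ 2)`. All facts on the field `K` are proved here (residues, the residue
theorem, finiteness of the class group, units, a form of the theorem of Chebotarev, existence of a
function with exactly one pole, heights).

Project GK: helper467, with parts by helpers 967, 286, 860, 935, 720, 331, 215, 253, 218, 687, 106,
183 and 120 and the parts of the project CT by helpers 548, 685, 643, 168, 955, 284 and 17; see
`departures/helper467.md`.
-/

set_option autoImplicit false
set_option linter.all false

namespace Pool.Agent.Results.MP_ae0bd0_nt.CharTwoAllFunctionFields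

open Polynomial Filter Pool.Agent.TH115.GD
open Pool.Agent.H467.GK (Vl VS IsFF ShaTwoA)
open scoped Classical

/-- The curve `y ^ 2 + x y = x ^ 3 + a x ^ 2 + b`. -/
def curve {K : Type} [Field K] (a b : K) : WeierstrassCurve K := ⟨1, a, 0, 0, b⟩

/-- The group of the `K`-rational points is finite, of odd order, and the 2-primary part of the
Tate-Shafarevich group is trivial. -/
def RankZero {K : Type} [Field K] (E : WeierstrassCurve K) : Prop :=
  Finite (Pt E K) ∧ Odd (Nat.card (Pt E K)) ∧ ShaTwoA E

/-- The number `C(m + 1, 2) 2 ^ (-m) ∏_{1 ≤ i < m} (1 - 2 ^ (-i))`. -/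
noncomputable def proportion (m : ℕ) : ℝ :=
  ((m + 1).choose 2 : ℝ) * (1 / 2) ^ m * ∏ i ∈ Finset.Ico 1 m, (1 - (1 / 2 : ℝ) ^ i)

/-! ### Comparison with the helper files -/

section aux

open Pool.Agent.H467.CT

theorem odd_card {G : Type} [AddCommGroup G] (hf : Finite G) (h : ∀ P : G, P + P = 0 → P = 0) :
    Odd (Nat.card G) := by
  rw [← Nat.not_even_iff_odd]
  intro he
  haveI := hf
  letI : Fintype G := Fintype.ofFinite G
  rw [Nat.card_eq_fintype_card] at he
  haveI : Fact (Nat.Prime 2) := ⟨Nat.prime_two⟩
  obtain ⟨x, hx⟩ := exists_prime_addOrderOf_dvd_card 2 he.two_dvd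
  have h1 : x + x = 0 := by
    rw [← two_nsmul, ← hx]
    exact addOrderOf_nsmul_eq_zero x
  rw [h x h1, addOrderOf_zero] at hx
  exact absurd hx (by norm_num)

theorem fin_pow {K : Type} [Field K] [CharP K 2] {a b₀ : K} (hb0 : b₀ ≠ 0)
    (h : Finite (Pt (curve a b₀) K)) (n : ℕ) : Finite (Pt (curve a (b₀ ^ 2 ^ n)) K) := by
  induction n with
  | zero =>
    rw [pow_zero, pow_one]
    exact h
  | succ n ih =>
    have e : b₀ ^ 2 ^ (n + 1) = (b₀ ^ 2 ^ n) ^ 2 := by rw [← pow_mul, pow_succ]
    have hb1 : b₀ ^ 2 ^ n ≠ 0 := pow_ne_zero _ hb0
    have h := std_bc (Ω := K) (a := a) (b := b₀ ^ 2 ^ (n + 1)) (pow_ne_zero _ hb0)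
    have e2 : algebraMap K K (b₀ ^ 2 ^ (n + 1)) = (algebraMap K K (b₀ ^ 2 ^ n)) ^ 2 := by
      rw [e, map_pow]
    rw [e2] at h
    exact fin_sq (std_bc (Ω := K) (a := a) (b := b₀ ^ 2 ^ n) hb1) h ih

theorem prop_pos {m : ℕ} (hm : m ≠ 0) : 0 < proportion m := by
  unfold proportion
  refine mul_pos (mul_pos ?_ (by positivity)) ?_
  · have : 0 < (m + 1).choose 2 := Nat.choose_pos (by omega)
    exact_mod_cast this
  · refine Finset.prod_pos fun i hi => ?_
    rw [sub_pos]
    have : i ≠ 0 := by
      have := (Finset.mem_Ico.1 hi).1
      omega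
    exact pow_lt_one₀ (by norm_num) (by norm_num) this

end aux

/-- **Theorem.** Let `K` be a global function field of characteristic two, `k` a finite field contained
in `K`. There is a finite set `S₁` of places of `K` such that for every finite set `S` of places containing
`S₁` and every elliptic curve `y ^ 2 + x y = x ^ 3 + a₀ x ^ 2 + b` over `K` which is not isotrivial (`b` is
transcendental over `k`), where `b` is an `S`-unit and `a₀` is an `S`-integer, (1) and (2) hold. -/
theorem result (k K : Type) [Field k] [Finite k] [CharP k 2] [Field K] [Algebra k K]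
    (hK : IsFF k K) :
    ∃ S₁ : Finset (Vl K), (∀ u ∈ S₁, Function.Surjective u) ∧
      ∀ S : Finset (Vl K), S₁ ⊆ S → (∀ u ∈ S, Function.Surjective u) →
        -- the sets of parameters
        (∀ N, (VS S N).Finite) ∧ Tendsto (fun N : ℕ => ((VS S N).ncard : ℝ)) atTop atTop ∧
        ∀ a₀ b : K, Transcendental k b →
          (∀ u : Vl K, Function.Surjective u → u ∉ S → u b = 1 ∧ u a₀ ≤ 1) →
          0 < proportion (S.card - 1) ∧
          -- (1)
          (¬ IsSquare b → ∀ c : ℝ, c < proportion (S.card - 1) → ∀ᶠ N : ℕ in atTop,
            c * ((VS S N).ncard : ℝ) ≤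
              ({a ∈ VS S N | RankZero (curve (a₀ + a) b)}.ncard : ℝ)) ∧
          -- (2)
          (∀ c : ℝ, c < proportion (S.card - 1) → ∀ᶠ N : ℕ in atTop,
            c * ((VS S N).ncard : ℝ) ≤
              ({a ∈ VS S N | Finite (Pt (curve (a₀ + a) b) K)}.ncard : ℝ)) := by
  haveI : CharP K 2 := charP_of_injective_algebraMap (algebraMap k K).injective 2
  obtain ⟨φ, hφ, hpres⟩ := Pool.Agent.H467.GK.Drc.dri Pool.Agent.H467.GK.Dra.dra
    Pool.Agent.H467.GK.Drb.drb k K hK
  letI i1 : Algebra (RatFunc k) K := φ.toAlgebra
  obtain ⟨hfd, hsep, w, hinf⟩ := hpres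
  haveI := hfd
  haveI := hsep
  letI i2 : Algebra k[X] K := (φ.comp (algebraMap k[X] (RatFunc k))).toAlgebra
  haveI i3 : IsScalarTower k[X] (RatFunc k) K := IsScalarTower.of_algebraMap_eq fun _ => rfl
  haveI : IsDedekindDomain (integralClosure k[X] K) :=
    integralClosure.isDedekindDomain k[X] (RatFunc k) K
  haveI : IsFractionRing (integralClosure k[X] K) K :=
    IsIntegralClosure.isFractionRing_of_finite_extension k[X] (RatFunc k) K _
  obtain ⟨hroot, hfin, S₁, hS₁, hmain⟩ := Pool.Agent.H467.GK.internal (k := k) (K₀ := RatFunc k)
    (K := K) (integralClosure k[X] K) hinf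
  refine ⟨S₁, hS₁, fun S hS hSs => ?_⟩
  obtain ⟨h1, h2, h3⟩ := hmain S hS hSs
  refine ⟨h1, h2, fun a₀ b hb hab => ?_⟩
  have hb0 : b ≠ 0 := fun h => hb (by rw [h]; exact isAlgebraic_zero)
  obtain ⟨N₀, hN₀⟩ := Pool.Agent.H467.GK.VS_mem (a₀ := a₀) fun u hu hu' => (hab u hu hu').2
  -- a place at which `b` is not a unit
  obtain ⟨v, hv⟩ : ∃ v : Vl K, Function.Surjective v ∧ v b ≠ 1 := by
    by_contra hc
    push Not at hc
    obtain ⟨n, hn, hbn⟩ := hroot b hc
    apply hb
    refine ⟨X ^ n - 1, ?_, ?_⟩
    · intro h0
      have := congrArg (fun p => coeff p n) h0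
      simp [coeff_one, hn.ne'] at this
    · rw [map_sub, map_pow, aeval_X, map_one, hbn, sub_self]
  obtain ⟨n, b₀, hbsq, hn⟩ := Pool.Agent.H467.GK.dec_powK hb0 hv.2
  have hb00 : b₀ ≠ 0 := by
    rintro rfl
    exact hbsq ⟨0, by simp⟩
  have hb₀S : ∀ u : Vl K, Function.Surjective u → u ∉ S → u b₀ = 1 := by
    intro u hu hu'
    have h4 := (hab u hu hu').1
    rw [hn, map_pow] at h4
    exact (pow_eq_one_iff_of_nonneg zero_le' (by positivity)).1 h4
  refine ⟨prop_pos (h3 b₀ hbsq hb₀S).1, ?_, ?_⟩
  · intro hbns c hc
    have h4 := (h3 b hbns (fun u hu hu' => (hab u hu hu').1)).2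
      (fun a => RankZero (curve a b)) (fun a h5 h6 h7 =>
        ⟨hfin a b hb0 h5 h6, odd_card (hfin a b hb0 h5 h6) h6, h7⟩) c hc
    filter_upwards [h4, eventually_ge_atTop N₀] with N h5 h6
    rw [Pool.Agent.H467.GK.VS_shift (hN₀ N h6) (fun a => RankZero (curve a b))]
    exact h5
  · intro c hc
    have h4 := (h3 b₀ hbsq hb₀S).2
      (fun a => Finite (Pt (curve a b) K)) (fun a h5 h6 h7 => by
        have h8 := fin_pow hb00 (hfin a b₀ hb00 h5 h6) n
        rw [← hn] at h8
        exact h8) c hc
    filter_upwards [h4, eventually_ge_atTop N₀] with N h5 h6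
    rw [Pool.Agent.H467.GK.VS_shift (hN₀ N h6) (fun a => Finite (Pt (curve a b) K))]
    exact h5

end Pool.Agent.Results.MP_ae0bd0_nt.CharTwoAllFunctionFields
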