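import Pool.Agent.H467.PU.Find

/-!
# The complete law of a Selmer group for all quadratic twists of elliptic curves over global function
fields of characteristic two

Let `K` be any global function field of characteristic two (of any genus, with any field of constants),
and let `E_{a, b} : y ^ 2 + x y = x ^ 3 + a x ^ 2 + b`, `b ≠ 0`. Every elliptic curve over `K` with `j ≠ 0`
has this form, with `b = 1 / j`, and the curves `E_{a₀ + a, b}`, `a ∈ K`, are the twists of `E_{a₀, b}` by
the quadratic extensions `z ^ 2 + z = a` of `K`. These extensions correspond to the elements of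
`K / {z ^ 2 + z}`; they are ordered by the norm of their conductor.

The multiplication by two of `E` is the composition of the Frobenius `E → E ^ (2)` and the Verschiebung
`V : E ^ (2) → E`. We consider the Selmer group of `V : E ^ (4) → E ^ (2)` (`E ^ (2)` and `E ^ (4)` are the
Frobenius twists, with the coefficients `(a ^ 2, b ^ 2)` and `(a ^ 4, b ^ 4)`; `E` and `E ^ (2)` are isogenous),
and the local images of `E ^ (2) (K_v)` in `H ^ 1 (K_v, ℤ / 2) = K_v / {z ^ 2 + z}`. These are finite groups with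
`2 ^ n_v` elements, `n_v = 1` for almost all `v`. The integer `u = ∑ (n_v - 1)` is called the excess of the
curve. It depends only on the local classes of the twist at the finitely many places at which `b` is not
a unit, and takes only finitely many values.

Theorem. Let `a₀, b ∈ K`, `b ≠ 0`.

(1) Let `P` be any condition on the local classes of the twist at finitely many places, and let `u` be an
integer, such that some twist of `E_{a₀, b}` which satisfies `P` has the excess `u`. Then the
proportion of those of these twists for which the Selmer group has `2 ^ (s + 1)` elements tends, for all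
`r, s ≥ 0` with `s = r + u`, to
`prob s r = 2 ^ (-r s) ∏_{i ≥ 1} (1 - 2 ^ (-i)) / (∏_{i ≤ r} (1 - 2 ^ (-i)) ∏_{i ≤ s} (1 - 2 ^ (-i)))`.
This is the limit of the probabilities that a random `n × (n + u)` matrix over `F_2` has the rank `n - r`; the sum of these
numbers is one. (The class of the point `(0, b)` of order two of `E ^ (2)` accounts for the `+ 1` in
the exponent.) So the Selmer groups of all twists are distributed according to the law of Cohen and
Lenstra and Gerth: a finite mixture of the laws for rectangular matrices, where the excess is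
determined by the local conditions, and is independent of everything else.

(2) The twists which satisfy `P` and have the excess `u` have a density `δ u` among ALL quadratic twists,
ordered by the norm of the conductor, and `δ u > 0` if there is such a twist. So the Selmer group has a
limiting distribution on the twists which satisfy `P`, in particular on the set of ALL quadratic
twists: the density of those with `2 ^ (s + 1)` elements is the sum of the `δ u prob s (s - u)`, `u ≤ s`, and
the sum over `s` of these densities is the density of the twists which satisfy `P` (one, if there is no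
condition).

(3) If the Selmer group has `2 ^ (s + 1)` elements and `s = r + u`, `u` the excess, then `E (K)` is finitely
generated of rank at most `r + s`. If `r = s = 0`, and the twist is not split, then `E (K)` is finite, and the 2-primary part
of the Tate-Shafarevich group is finite, killed by two.

(4) There is a constant `C` such that, for every `n`, at least `1 - C 2 ^ (-[n ^ 2 / 4])` times all quadratic twists of
`E_{a₀, b}` have rank at most `n` (so, for every `ε > 0`, almost all of them have bounded rank, up to a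
proportion `ε`).

(5) In every family of twists with excess zero which is given by a condition on the local classes at
finitely many places, more than 28.8% of the twists have rank zero and a finite 2-primary part of
the Tate-Shafarevich group. Let `δ₀ > 0` be the density of the twists with excess zero (there are such
twists, for instance the balanced ones); then at least `δ₀ prob 0 0 > 0.288 δ₀` times ALL quadratic twists
(up to `ε`) have these properties. By the known theorem of Artin, Tate, Milne, Kato and Trihan these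
twists satisfy the conjecture of Birch and Swinnerton-Dyer.

(6) Balanced twists have excess zero. (If `b` is a constant, then all twists are balanced, `δ₀ = 1`.)

The proof. The Selmer group of `χ = a₀ + a` is described by a rectangular matrix: the rows belong to a basis
of the elements of `K^* / K^*2` which are units outside a finite set `B` of places and the set `U` of the
primes outside `B` at which `χ` is ramified, the columns belong to the bases of the local images at the
places in `B`, and to the places in `U`, and the entries are the residue symbols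
`Tr Res_v (χ dlog f)`. Almost all effective divisors are such that the primes of large degree in them are
simple and their relations (products of the basis elements which are squares modulo the square of a
prime) are rare; in the fibre over a fixed part of small degree the matrix is close to a random matrix
with finitely many fixed, linearly independent columns. The left kernel of the matrix is dual to the
Selmer group of the Frobenius `E ^ (2) → E ^ (4)`, so that there are at most `r` generators of the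
image of `E ^ (4) (K)` in `K^* / K^*2` if the matrix has a left kernel with `2 ^ r` elements. The local images
are groups which are orthogonal to those of the Frobenius, and are finite because the poles
of their classes are bounded. The Mordell-Weil theorem is proved with heights. The densities
exist because the number of the classes with given local classes at `S` and with poles of order at
most `2 D` outside `S` is exactly `2 ^ (1 - |S|) q ^ (deg D)` for large `D` (Riemann's theorem and strong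
approximation), so that Moebius inversion and the asymptotic formula for the number of the
effective divisors give an asymptotic formula for the number of the classes with given local
classes at `S`, with a constant which does not depend on the local classes.

Project PU: helper467, with parts by helpers 34, 75, 122, 124, 199, 213, 225, 277, 379, 399, 400,
551, 588, 597, 618, 686, 720, 725, 727, 878, 898, 962, 974, 981, 984, 632; the densities (project DN) with
parts by helpers 23, 106, 196, 218, 307, 322, 358, 372, 599, 627, 703, 719, 733, 784, 808, 887, 976; the project continues the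
project PG (`SelmerLawOfAllTwists`: the law of the balanced twists, excess zero) with parts by many
other helpers, and uses parts of the projects GK, PT and CT; see `departures/helper467.md`.
-/

set_option autoImplicit false
set_option linter.all false

namespace Pool.Agent.Results.MP_ae0bd0_nt.CompleteSelmerLawOfAllTwists

open Filter Pool.Agent.TH115.GD
open Pool.Agent.H467.GK (Vl Cm IsFF LTA)
open scoped Classical

/-! ### Places and quadratic extensions -/

/-- The places of `K`: the discrete valuations of `K` with value group `ℤ` (written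
multiplicatively). -/
def Place (K : Type) [Field K] : Type :=
  {v : Valuation K (WithZero (Multiplicative ℤ)) // Function.Surjective v}

/-- The elements `z ^ 2 + z` of `K`. -/
def wp (K : Type) [Field K] [CharP K 2] : AddSubgroup K where
  carrier := {x | ∃ z : K, x = z ^ 2 + z}
  add_mem' := (Pool.Agent.H467.PG.wp K).add_mem'
  zero_mem' := (Pool.Agent.H467.PG.wp K).zero_mem'
  neg_mem' := (Pool.Agent.H467.PG.wp K).neg_mem'

/-- The (separable) quadratic extensions `z ^ 2 + z = a` of `K`, including the trivial one: the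
elements of `K / {z ^ 2 + z}`. -/
abbrev Ext (K : Type) [Field K] [CharP K 2] : Type := K ⧸ wp K

/-- The extension `z ^ 2 + z = a`. -/
def ext {K : Type} [Field K] [CharP K 2] (a : K) : Ext K := QuotientAddGroup.mk a

/-- The smallest order of the pole of an element `a + z ^ 2 + z` at `v`. -/
noncomputable def poleOrder {K : Type} [Field K] (v : Place K) (a : K) : ℕ :=
  sInf {n : ℕ | ∃ z : K, v.1 (a + z ^ 2 + z) ≤ WithZero.exp (n : ℤ)}

/-- The norm of the conductor of the extension `z ^ 2 + z = a`: the product of the powers `q_v ^ (n + 1)` at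
the places with `n = poleOrder v a ≠ 0`, `q_v` the number of elements of the residue field. -/
noncomputable def condNorm {K : Type} [Field K] (a : K) : ℕ :=
  ∏ᶠ v : Place K, Nat.card (IsLocalRing.ResidueField v.1.valuationSubring) ^
    (if poleOrder v a = 0 then 0 else poleOrder v a + 1)

/-- The quadratic extensions with conductor of norm at most `X`. -/
def ExtLE (K : Type) [Field K] [CharP K 2] (X : ℕ) : Set (Ext K) :=
  {χ | ∃ a : K, ext a = χ ∧ condNorm a ≤ X}

/-! ### The curves and their Selmer groups -/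

/-- The curve `y ^ 2 + x y = x ^ 3 + a x ^ 2 + b`. -/
def curve {K : Type} [Field K] (a b : K) : WeierstrassCurve K := ⟨1, a, 0, 0, b⟩

/-- The curve with the coefficients `a`, `b` is balanced at `v`. -/
def BalancedAt {K : Type} [Field K] (v : Place K) (a b : K) : Prop :=
  v.1 b = 1 ∨ (v.1 b < 1 ∧ ¬ ∃ z : K, v.1 (a + z ^ 2 + z) < 1) ∨
    (1 < v.1 b ∧ ∀ z : K, v.1 b ^ 2 < v.1 (a + z ^ 2 + z))

/-- The image of the `L`-rational points of `E : y ^ 2 + x y = x ^ 3 + a x ^ 2 + b` under the homomorphism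
`E (L) → L / {z ^ 2 + z} = H ^ 1 (L, ℤ / 2)`, which maps `(x, y)` to the class of `x + a`. This is the
connecting homomorphism of the Verschiebung `E ^ (2) → E`, the kernel of which has the elements `0` and
`(0, b)`. -/
def InImage {L : Type} [Field L] (a b α : L) : Prop :=
  (∃ z : L, α = z ^ 2 + z) ∨
    ∃ x y z : L, y ^ 2 + x * y = x ^ 3 + a * x ^ 2 + b ∧ α + (x + a) = z ^ 2 + z

/-- The embedding of `K` in its completion at `v`. -/
noncomputable def toCompletion {K : Type} [Field K] (v : Place K) (x : K) : Cm v.1 :=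
  algebraMap K (Cm v.1) x

/-- The Selmer group of the Verschiebung `E ^ (2) → E`, `E : y ^ 2 + x y = x ^ 3 + a x ^ 2 + b`. -/
def Selmer {K : Type} [Field K] [CharP K 2] (a b : K) : Set (Ext K) :=
  {χ | ∀ α : K, ext α = χ → ∀ v : Place K,
    InImage (toCompletion v a) (toCompletion v b) (toCompletion v α)}

/-- The completions have characteristic two. -/
instance {K : Type} [Field K] [CharP K 2] (v : Place K) : CharP (Cm v.1) 2 :=
  charP_of_injective_algebraMap (algebraMap K (Cm v.1)).injective 2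

/-- The image of `E (K_v)` in `K_v / {z ^ 2 + z}`, `E : y ^ 2 + x y = x ^ 3 + a x ^ 2 + b`. -/
def localImage {K : Type} [Field K] [CharP K 2] (v : Place K) (a b : K) : Set (Ext (Cm v.1)) :=
  {χ | ∀ α : Cm v.1, ext α = χ → InImage (toCompletion v a) (toCompletion v b) α}

/-- The excess of `E : y ^ 2 + x y = x ^ 3 + a x ^ 2 + b`: the sum of the numbers `n_v - 1`, where the image
of `E ^ (2) (K_v)` has `2 ^ n_v` elements. -/
noncomputable def excess {K : Type} [Field K] [CharP K 2] (a b : K) : ℤ :=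
  ∑ᶠ v : Place K, ((Nat.log 2 (localImage v (a ^ 2) (b ^ 2)).ncard : ℤ) - 1)

/-- `P` is a condition on the local classes of `χ` at finitely many places. -/
def LocalCondition {K : Type} [Field K] [CharP K 2] (P : Ext K → Prop) : Prop :=
  ∃ S : Finset (Place K), ∀ a a' : K,
    (∀ v ∈ S, ∃ z : Cm v.1, toCompletion v (a + a') = z ^ 2 + z) → P (ext a) → P (ext a')

/-- The quadratic extensions `χ : z ^ 2 + z = a` with conductor of norm at most `X` which have the
property `P`, and such that the twist of `y ^ 2 + x y = x ^ 3 + a₀ x ^ 2 + b` by `χ` has the excess `u`. -/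
def Family {K : Type} [Field K] [CharP K 2] (a₀ b : K) (P : Ext K → Prop) (u : ℤ) (X : ℕ) :
    Set (Ext K) :=
  {χ ∈ ExtLE K X | P χ ∧ ∀ a : K, ext a = χ → excess (a₀ + a) b = u}

/-- The extensions in `Family a₀ b P u X` for which the Selmer group of the Verschiebung
`E ^ (4) → E ^ (2)` has `n` elements, where `E` is the twist of `y ^ 2 + x y = x ^ 3 + a₀ x ^ 2 + b`. -/
def SelmerFamily {K : Type} [Field K] [CharP K 2] (a₀ b : K) (P : Ext K → Prop) (u : ℤ) (n X : ℕ) :
    Set (Ext K) :=
  {χ ∈ Family a₀ b P u X | ∀ a : K, ext a = χ → (Selmer ((a₀ + a) ^ 2) (b ^ 2)).ncard = n}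

/-- The limit, for `n → ∞`, of the probabilities that a random matrix over the field with two elements
with `n + r` rows and `n + s` columns has rank `n`. -/
noncomputable def prob (s r : ℕ) : ℝ :=
  (1 / 2) ^ (s * r) * (∏' i : ℕ, (1 - (1 / 2 : ℝ) ^ (i + 1))) /
    ((∏ i ∈ Finset.range s, (1 - (1 / 2 : ℝ) ^ (i + 1))) *
      ∏ i ∈ Finset.range r, (1 - (1 / 2 : ℝ) ^ (i + 1)))

/-- The cocycle `f` of the absolute Galois group of `K` with values in `E (Sep K)` gives an element
of the 2-primary part of the Tate-Shafarevich group. -/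
def InSha {K : Type} [Field K] (E : WeierstrassCurve K)
    (f : (Sep K ≃ₐ[K] Sep K) → Pt E (Sep K)) : Prop :=
  IsCoc E f ∧ LTA E f ∧
    ∃ (n : ℕ) (R : Pt E (Sep K)), ∀ σ, 2 ^ n • f σ = act E (rs K σ) R - R

/-- There are only finitely many `K`-rational points, and the 2-primary part of the
Tate-Shafarevich group is finite and killed by two. -/
def RankZero {K : Type} [Field K] (E : WeierstrassCurve K) : Prop :=
  Finite (Pt E K) ∧
  (∀ f, InSha E f → ∃ R : Pt E (Sep K), ∀ σ, 2 • f σ = act E (rs K σ) R - R) ∧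
  ∃ F : Finset ((Sep K ≃ₐ[K] Sep K) → Pt E (Sep K)), ∀ f, InSha E f →
    ∃ g ∈ F, ∃ R : Pt E (Sep K), ∀ σ, f σ - g σ = act E (rs K σ) R - R

/-- The group of the `K`-rational points is finitely generated of rank at most `n`. -/
def RankLE {K : Type} [Field K] (E : WeierstrassCurve K) (n : ℕ) : Prop :=
  AddGroup.FG (Pt E K) ∧ Module.finrank ℤ (Pt E K) ≤ n

/-! ### Proportions -/

/-- For large `X` the set `S X` has at least `c` times as many elements as `T X`. -/
def AtLeastShare {α : Type} (S T : ℕ → Set α) (c : ℝ) : Prop :=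
  ∀ᶠ X : ℕ in atTop, c * ((T X).ncard : ℝ) ≤ ((S X).ncard : ℝ)

/-- The proportion of the elements of `T X` which are in `S X` tends to `p`. -/
def HasDensity {α : Type} (S T : ℕ → Set α) (p : ℝ) : Prop :=
  Tendsto (fun X : ℕ => ((S X).ncard : ℝ) / ((T X).ncard : ℝ)) atTop (nhds p)

/-- The mixture of the laws `prob` with the weights `δ u`: the sum of the numbers `δ u * prob s r`,
`r = s - u ≥ 0`. -/
noncomputable def mixture (δ : ℤ → ℝ) (s : ℕ) : ℝ :=
  ∑ᶠ u : ℤ, if u ≤ s then δ u * prob s (s - u).toNat else 0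

/-! ### Comparison with the helper files -/

section aux

open Pool.Agent.H467.PG

theorem inImage_iff {L : Type} [Field L] [CharP L 2] (a b α : L) :
    InImage a b α ↔ Pool.Agent.H467.CT.LV a b α := by
  unfold InImage Pool.Agent.H467.CT.LV Pool.Agent.H467.CT.AS
  refine or_congr Iff.rfl (exists_congr fun x => ?_)
  have h2 : ∀ w : L, w + w = 0 := CharTwo.add_self_eq_zero
  constructor
  · rintro ⟨y, z, h1, hz⟩
    refine ⟨⟨z, by rw [← hz]; ring⟩, fun hx => ?_, ?_⟩
    · refine ⟨y / x, ?_⟩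
      have hx2 : x ^ 2 ≠ 0 := pow_ne_zero 2 hx
      have h3 : (y / x) ^ 2 + y / x = (y ^ 2 + x * y) / x ^ 2 := by
        field_simp
      rw [h3, h1]
      field_simp
    · rintro rfl
      refine ⟨y, ?_⟩
      have h3 : y ^ 2 = b := by
        have : y ^ 2 + 0 * y = y ^ 2 := by ring
        rw [← this, h1]
        ring
      rw [← h3, pow_two]
  · rintro ⟨⟨z, hz⟩, h3, h4⟩
    by_cases hx : x = 0
    · obtain ⟨y, hy⟩ := h4 hx
      refine ⟨y, z, ?_, by rw [← hz]; ring⟩
      rw [hx, hy]
      ring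
    · obtain ⟨w, hw⟩ := h3 hx
      refine ⟨x * w, z, ?_, by rw [← hz]; ring⟩
      have h5 : (x * w) ^ 2 + x * (x * w) = x ^ 2 * (w ^ 2 + w) := by ring
      rw [h5, ← hw]
      field_simp

theorem selmer_eq {K : Type} [Field K] [CharP K 2] (a b : K) :
    Selmer a b = {χ : Qc K | ∀ α : K, mkq α = χ → Pool.Agent.H467.GK.AllVA a b α} := by
  ext χ
  constructor
  · intro h α hα u hu
    exact (inImage_iff _ _ _).1 (h α hα ⟨u, hu⟩)
  · intro h α hα v
    exact (inImage_iff _ _ _).2 (h α hα v.1 v.2)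

theorem extLE_eq {K : Type} [Field K] [CharP K 2] (X : ℕ) :
    ExtLE K X = {χ : Qc K | ∃ a, mkq a = χ ∧ Pool.Agent.H467.PG.Asm.cN a ≤ X} := rfl

theorem selmer_Sg {K : Type} [Field K] [CharP K 2] (a b : K) :
    Selmer a b = Pool.Agent.H467.PU.Asmw.Sg a b := selmer_eq a b

theorem localImage_eq {K : Type} [Field K] [CharP K 2] (v : Place K) (a b : K) :
    localImage v a b = Pool.Agent.H467.PU.Crd.LI (K := K) v a b := by
  ext χ
  exact forall_congr' fun α => imp_congr Iff.rfl (inImage_iff _ _ _)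

theorem excess_eq {K : Type} [Field K] [CharP K 2] (a b : K) :
    excess a b = Pool.Agent.H467.PU.Asmw.exc a b := by
  have h : ∀ v : Place K, ((Nat.log 2 (localImage v (a ^ 2) (b ^ 2)).ncard : ℤ) - 1) =
      ((Nat.log 2 (Pool.Agent.H467.PU.Crd.LI (K := K) v (a ^ 2) (b ^ 2)).ncard : ℤ) - 1) :=
    fun v => by rw [localImage_eq]; rfl
  exact finsum_congr h

theorem family_eq {K : Type} [Field K] [CharP K 2] (a₀ b : K) (P : Ext K → Prop) (u : ℤ) (X : ℕ) :
    Family a₀ b P u X = Pool.Agent.H467.PU.Asmw.Fam a₀ b P u X := by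
  have h : ∀ χ : Ext K, (∀ a : K, ext a = χ → excess (a₀ + a) b = u) ↔
      ∀ a : K, mkq a = χ → Pool.Agent.H467.PU.Asmw.exc (a₀ + a) b = u := fun χ =>
    forall_congr' fun a => imp_congr Iff.rfl (by rw [excess_eq])
  ext χ
  exact and_congr Iff.rfl (and_congr Iff.rfl (h χ))

theorem selmerFamily_eq {K : Type} [Field K] [CharP K 2] (a₀ b : K) (P : Ext K → Prop) (u : ℤ)
    (n X : ℕ) : SelmerFamily a₀ b P u n X =
      {χ ∈ Pool.Agent.H467.PU.Asmw.Fam a₀ b P u X | ∀ a : K, mkq a = χ →
        (Pool.Agent.H467.PU.Asmw.Sg ((a₀ + a) ^ 2) (b ^ 2)).ncard = n} := by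
  unfold SelmerFamily
  rw [family_eq]
  ext χ
  exact and_congr Iff.rfl (forall_congr' fun a => imp_congr Iff.rfl (by rw [selmer_Sg]; rfl))

theorem selmer_SV {k K : Type} [Field k] [Finite k] [CharP k 2] [Field K] [CharP K 2] [Algebra k K]
    (hK : IsFF k K) (a b : K) (hb : b ≠ 0) (hbal : ∀ v : Place K, BalancedAt v a b) :
    Selmer (a ^ 2) (b ^ 2) = SV (mkq a) := by
  obtain ⟨F⟩ := Fin.hGF k K hK
  have h := (Fin.hONE k K hK F a b hb fun j => hbal j).1
  rw [selmer_eq]
  ext χ
  constructor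
  · intro h1
    obtain ⟨α, rfl⟩ := Asm.mkq_surj χ
    exact (h α).1 (h1 α rfl)
  · rintro h1 α rfl
    exact (h α).2 h1

theorem rankZero_of {k K : Type} [Field k] [Finite k] [CharP k 2] [Field K] [CharP K 2]
    [Algebra k K] (hK : IsFF k K) (a b : K) (hb : b ≠ 0) (ha : ¬ ∃ z : K, a = z ^ 2 + z)
    (hx : excess a b = 0) (h2 : (Selmer (a ^ 2) (b ^ 2)).ncard = 2) : RankZero (curve a b) := by
  rw [excess_eq] at hx
  rw [selmer_Sg] at h2
  obtain ⟨h3, h4, F', h5⟩ := Pool.Agent.H467.PU.Asmw.one_zero (k := k) hK a b hb ha hx h2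
  exact ⟨h3, fun f hf => h4 f hf.1 hf.2.1 hf.2.2, F', fun f hf => h5 f hf.1 hf.2.1 hf.2.2⟩

/-- The law. -/
theorem law {k K : Type} [Field k] [Finite k] [CharP k 2] [Field K] [CharP K 2] [Algebra k K]
    (hK : IsFF k K) (a₀ b : K) (hb : b ≠ 0) (P : Ext K → Prop) (hP : LocalCondition P) (u : ℤ)
    (hne : ∃ X, (Family a₀ b P u X).Nonempty) :
    (∃ c : ℝ, 0 < c ∧ ∀ᶠ X : ℕ in atTop, c * (X : ℝ) ≤ ((Family a₀ b P u X).ncard : ℝ)) ∧
      ∀ r s : ℕ, (s : ℤ) = r + u →
        Tendsto (fun X : ℕ => ((SelmerFamily a₀ b P u (2 ^ (s + 1)) X).ncard : ℝ) /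
          ((Family a₀ b P u X).ncard : ℝ)) atTop (nhds (prob s r)) := by
  obtain ⟨S, hS⟩ := hP
  obtain ⟨X₀, χ, hχ⟩ := hne
  rw [family_eq] at hχ
  obtain ⟨h1, h2⟩ := Pool.Agent.H467.PU.Asmw.lawU (k := k) Pool.Agent.H467.PU.Finw.hJINW hK a₀ b hb
    P S hS u ⟨χ, hχ.2.1, hχ.2.2⟩
  refine ⟨?_, fun r s hrs => ?_⟩
  · obtain ⟨c, hc, h3⟩ := h1
    refine ⟨c, hc, h3.mono fun X hX => ?_⟩
    rw [family_eq]
    exact hX
  · refine (h2 r s hrs).congr fun X => ?_
    rw [← selmerFamily_eq, ← family_eq]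
    rfl

/-- The twists of rank zero in a family of excess zero. -/
theorem share {k K : Type} [Field k] [Finite k] [CharP k 2] [Field K] [CharP K 2] [Algebra k K]
    (hK : IsFF k K) (a₀ b : K) (hb : b ≠ 0) (P : Ext K → Prop) (hP : LocalCondition P)
    (hne : ∃ X, (Family a₀ b P 0 X).Nonempty) (c : ℝ) (hc : c < prob 0 0) :
    AtLeastShare (fun X => {χ ∈ Family a₀ b P 0 X | ∀ a : K, ext a = χ →
      RankZero (curve (a₀ + a) b)}) (Family a₀ b P 0) c := by
  obtain ⟨C, hC⟩ := Pool.Agent.H467.PU.Asmw.allU (k := k) (K := K) hK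
  have hfin : ∀ X, (Family a₀ b P 0 X).Finite := fun X => (hC X).1.subset fun χ h => h.1
  obtain ⟨⟨c₀, hc₀, h1⟩, h2⟩ := law hK a₀ b hb P hP 0 hne
  have hX : Tendsto (fun X : ℕ => ((Family a₀ b P 0 X).ncard : ℝ)) atTop atTop := by
    refine tendsto_atTop_mono' atTop h1 ?_
    exact Tendsto.const_mul_atTop hc₀ tendsto_natCast_atTop_atTop
  obtain ⟨c₁, hc1, hc2⟩ := exists_between hc
  have h3 : ∀ᶠ X : ℕ in atTop, c₁ < ((SelmerFamily a₀ b P 0 (2 ^ (0 + 1)) X).ncard : ℝ) /
      ((Family a₀ b P 0 X).ncard : ℝ) := (h2 0 0 (by simp)).eventually (lt_mem_nhds hc2)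
  filter_upwards [h3, hX.eventually_ge_atTop (1 / (c₁ - c)), hX.eventually_gt_atTop 0]
    with X h4 h5 h6
  have h7 : c₁ * ((Family a₀ b P 0 X).ncard : ℝ) <
      ((SelmerFamily a₀ b P 0 (2 ^ (0 + 1)) X).ncard : ℝ) := by
    rwa [← lt_div_iff₀ h6]
  have h8 : (SelmerFamily a₀ b P 0 (2 ^ (0 + 1)) X).ncard ≤
      {χ ∈ Family a₀ b P 0 X | ∀ a : K, ext a = χ → RankZero (curve (a₀ + a) b)}.ncard + 1 := by
    refine le_trans (Set.ncard_le_ncard (t := insert (mkq a₀)
      {χ ∈ Family a₀ b P 0 X | ∀ a : K, ext a = χ → RankZero (curve (a₀ + a) b)}) ?_ ?_)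
      (Set.ncard_insert_le _ _)
    · rintro χ ⟨h9, h10⟩
      by_cases h11 : χ = mkq a₀
      · exact Or.inl h11
      · refine Or.inr ⟨h9, fun a ha => ?_⟩
        refine rankZero_of hK (a₀ + a) b hb ?_ (h9.2.2 a ha) (by simpa using h10 a ha)
        rintro ⟨z, hz⟩
        apply h11
        rw [← ha]
        change mkq a = mkq a₀
        refine Asm.mkq_eq.2 ⟨z, ?_⟩
        have h12 : a = a₀ + (a₀ + a) := by
          rw [← add_assoc, CharTwo.add_self_eq_zero, zero_add]
        rw [h12, hz]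
        ring
    · exact ((hfin X).subset fun χ h => h.1).insert _
  have h9 : (1 : ℝ) ≤ (c₁ - c) * ((Family a₀ b P 0 X).ncard : ℝ) := by
    have h10 : 0 < c₁ - c := sub_pos.2 hc1
    rw [div_le_iff₀ h10] at h5
    linarith
  have h10 : ((SelmerFamily a₀ b P 0 (2 ^ (0 + 1)) X).ncard : ℝ) ≤
      ({χ ∈ Family a₀ b P 0 X | ∀ a : K, ext a = χ →
        RankZero (curve (a₀ + a) b)}.ncard : ℝ) + 1 := by exact_mod_cast h8
  show c * ((Family a₀ b P 0 X).ncard : ℝ) ≤ _
  linarith

/-- Balanced twists have excess zero. -/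
theorem excess_bal {k K : Type} [Field k] [Finite k] [CharP k 2] [Field K] [CharP K 2]
    [Algebra k K] (hK : IsFF k K) (a b : K) (hb : b ≠ 0) (h : ∀ v : Place K, BalancedAt v a b) :
    excess a b = 0 := by
  obtain ⟨F⟩ := Fin.hGF k K hK
  rw [excess_eq]
  exact Pool.Agent.H467.PU.Asmw.exc_bal F a b hb fun j => h j

/-- The family of excess zero is not empty. -/
theorem zero_ne {k K : Type} [Field k] [Finite k] [CharP k 2] [Field K] [CharP K 2]
    [Algebra k K] (hK : IsFF k K) (a₀ b : K) (hb : b ≠ 0) :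
    ∃ X, (Family a₀ b (fun _ => True) 0 X).Nonempty := by
  obtain ⟨χ, h⟩ := Pool.Agent.H467.PU.Asmw.bal_ex (k := k) hK a₀ b hb
  obtain ⟨a, ha⟩ := Asm.mkq_surj χ
  refine ⟨condNorm a, χ, ⟨a, ha, le_refl _⟩, trivial, fun a' ha' => ?_⟩
  exact excess_bal hK (a₀ + a') b hb fun v => h a' ha' v

/-- The proportion of the twists of large rank. -/
theorem tail {k K : Type} [Field k] [Finite k] [CharP k 2] [Field K] [CharP K 2]
    [Algebra k K] (hK : IsFF k K) (a₀ b : K) (hb : b ≠ 0) :
    ∃ C : ℝ, ∀ n : ℕ, AtLeastShare (fun X => {χ ∈ ExtLE K X | ∀ a : K, ext a = χ →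
      RankLE (curve (a₀ + a) b) n}) (ExtLE K) (1 - C * (1 / 2) ^ (n ^ 2 / 4)) := by
  obtain ⟨C₀, hC₀⟩ := Pool.Agent.H467.PU.Asmw.allU (k := k) (K := K) hK
  obtain ⟨C, hC⟩ := Pool.Agent.H467.PU.Asmw.tailU (k := k) hK a₀ b hb
  refine ⟨C, fun n => ?_⟩
  filter_upwards [hC n] with X hX
  refine hX.trans ?_
  have h1 := Set.ncard_le_ncard (s := {χ : Qc K | (∃ a, mkq a = χ ∧
      Pool.Agent.H467.PG.Asm.cN a ≤ X) ∧ ∀ a : K, mkq a = χ →
        ∃ r s : ℕ, (s : ℤ) = r + Pool.Agent.H467.PU.Asmw.exc (a₀ + a) b ∧ s + r ≤ n ∧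
          (Pool.Agent.H467.PU.Asmw.Sg ((a₀ + a) ^ 2) (b ^ 2)).ncard = 2 ^ (s + 1)})
    (t := {χ ∈ ExtLE K X | ∀ a : K, ext a = χ → RankLE (curve (a₀ + a) b) n}) ?_
    ((hC₀ X).1.subset fun χ h => h.1)
  · exact_mod_cast h1
  · rintro χ ⟨h2, h3⟩
    refine ⟨h2, fun a ha => ?_⟩
    obtain ⟨r, s, h4, h5, h6⟩ := h3 a ha
    obtain ⟨h7, h8⟩ := Pool.Agent.H467.PU.Asmw.rank_one (k := k) Pool.Agent.H467.PU.Finw.hHTT
      Pool.Agent.H467.PU.Finw.hRKF hK (a₀ + a) b hb r s h4 h6
    exact ⟨h7, h8.trans h5⟩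

theorem hasSum_prob (u : ℤ) :
    HasSum (fun s : ℕ => if u ≤ s then prob s (s - u).toNat else 0) 1 := by
  have hp := Pool.Agent.H467.PU.Pnu.pnu
  obtain ⟨w, rfl | rfl⟩ := u.eq_nat_or_neg
  · have h := hp.2.2.2 w
    refine (Function.Injective.hasSum_iff (g := fun i => i + w) (add_left_injective w) ?_).1 ?_
    · intro r hr
      refine if_neg fun h1 => hr ⟨r - w, ?_⟩
      have h2 : w ≤ r := by exact_mod_cast h1
      show r - w + w = r
      omega
    · refine Eq.mp ?_ h
      congr 1
      funext i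
      show Pool.Agent.H467.PU.alq (i + w) i = if (w : ℤ) ≤ ((i + w : ℕ) : ℤ) then
        prob (i + w) (((i + w : ℕ) : ℤ) - (w : ℤ)).toNat else 0
      have e : (((i + w : ℕ) : ℤ) - (w : ℤ)) = (i : ℤ) := by
        push_cast
        ring
      rw [e, if_pos (by push_cast; linarith [Int.natCast_nonneg i]), Int.toNat_natCast]
      rfl
  · refine Eq.mp ?_ (hp.2.2.2 w)
    congr 1
    funext i
    show Pool.Agent.H467.PU.alq (i + w) i = if -(w : ℤ) ≤ (i : ℤ) then
      prob i ((i : ℤ) - -(w : ℤ)).toNat else 0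
    have e : (i : ℤ) - -(w : ℤ) = ((i + w : ℕ) : ℤ) := by
      push_cast
      ring
    rw [e, if_pos (by linarith [Int.natCast_nonneg i, Int.natCast_nonneg w]), Int.toNat_natCast]
    exact hp.2.1 (i + w) i

/-- The law for all twists. -/
theorem dens {k K : Type} [Field k] [Finite k] [CharP k 2] [Field K] [CharP K 2] [Algebra k K]
    (hK : IsFF k K) (a₀ b : K) (hb : b ≠ 0) (P : Ext K → Prop) (hP : LocalCondition P) :
    ∃ δ : ℤ → ℝ, (∀ u, 0 ≤ δ u) ∧ (∀ u, 0 < δ u ↔ ∃ X, (Family a₀ b P u X).Nonempty) ∧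
      (∀ u, HasDensity (Family a₀ b P u) (ExtLE K) (δ u)) ∧
      HasDensity (fun X => {χ ∈ ExtLE K X | P χ}) (ExtLE K) (∑ᶠ u, δ u) ∧
      (∀ s : ℕ, HasDensity (fun X => {χ ∈ ExtLE K X | P χ ∧ ∀ a : K, ext a = χ →
        (Selmer ((a₀ + a) ^ 2) (b ^ 2)).ncard = 2 ^ (s + 1)}) (ExtLE K) (mixture δ s)) ∧
      HasSum (mixture δ) (∑ᶠ u, δ u) := by
  obtain ⟨F⟩ := Fin.hGF k K hK
  obtain ⟨S, hS⟩ := hP
  obtain ⟨N, hN, hmix⟩ := Pool.Agent.H467.PU.Asmw.mixU (k := k) Pool.Agent.H467.PU.Finw.hDSD hK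
    a₀ b hb
  obtain ⟨δ, h0, h1, h2, h3, h4⟩ := hmix P S hS
  have hsup : ∀ u, u ∉ Finset.Icc (-(N : ℤ)) N → δ u = 0 := by
    intro u hu
    by_contra h5
    obtain ⟨χ, -, h6⟩ := (h1 u).1 (lt_of_le_of_ne (h0 u) (Ne.symm h5))
    apply hu
    rw [← h6]
    exact hN (a₀ + χ.out)
  have e1 : ∑ᶠ u, δ u = ∑ u ∈ Finset.Icc (-(N : ℤ)) N, δ u := by
    refine finsum_eq_sum_of_support_subset _ fun u hu => ?_
    by_contra h5
    exact hu (hsup u h5)
  have e2 : ∀ s : ℕ, mixture δ s = ∑ u ∈ Finset.Icc (-(N : ℤ)) N,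
      if u ≤ s then δ u * prob s (s - u).toNat else 0 := by
    intro s
    refine finsum_eq_sum_of_support_subset _ fun u hu => ?_
    by_contra h5
    apply hu
    show (if u ≤ s then δ u * prob s (s - u).toNat else 0) = 0
    rw [hsup u h5, zero_mul, ite_self]
  refine ⟨δ, h0, fun u => (h1 u).trans ?_, fun u => ?_, ?_, fun s => ?_, ?_⟩
  · constructor
    · rintro ⟨χ, h5, h6⟩
      obtain ⟨a, ha⟩ := Asm.mkq_surj χ
      refine ⟨condNorm a, χ, ?_⟩
      rw [family_eq, Pool.Agent.H467.PU.Asmw.fam_sep F a₀ b hb P u]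
      exact ⟨⟨a, ha, le_refl _⟩, h5, h6⟩
    · rintro ⟨X, χ, h5⟩
      rw [family_eq, Pool.Agent.H467.PU.Asmw.fam_sep F a₀ b hb P u] at h5
      exact ⟨χ, h5.2.1, h5.2.2⟩
  · refine (h2 u).congr fun X => ?_
    rw [← family_eq]
    rfl
  · rw [e1]
    exact h3
  · rw [e2 s]
    refine (h4 s).congr fun X => ?_
    have h5 : {χ ∈ Pool.Agent.H467.PU.Asmw.All K X | P χ ∧ ∀ a : K, mkq a = χ →
        (Pool.Agent.H467.PU.Asmw.Sg ((a₀ + a) ^ 2) (b ^ 2)).ncard = 2 ^ (s + 1)} =
      {χ ∈ ExtLE K X | P χ ∧ ∀ a : K, ext a = χ →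
        (Selmer ((a₀ + a) ^ 2) (b ^ 2)).ncard = 2 ^ (s + 1)} := by
      ext χ
      exact and_congr Iff.rfl (and_congr Iff.rfl (forall_congr' fun a =>
        imp_congr Iff.rfl (by rw [selmer_Sg]; rfl)))
    rw [h5]
    rfl
  · have h5 : mixture δ = fun s : ℕ => ∑ u ∈ Finset.Icc (-(N : ℤ)) N,
        (δ u * if u ≤ s then prob s (s - u).toNat else 0) := by
      funext s
      rw [e2 s]
      refine Finset.sum_congr rfl fun u _ => ?_
      split_ifs <;> simp
    rw [h5, e1]
    refine hasSum_sum fun u _ => ?_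
    have h6 := (hasSum_prob u).mul_left (δ u)
    rwa [mul_one] at h6

/-- The law for all twists, with the total mass. -/
theorem dens' {k K : Type} [Field k] [Finite k] [CharP k 2] [Field K] [CharP K 2] [Algebra k K]
    (hK : IsFF k K) (a₀ b : K) (hb : b ≠ 0) (P : Ext K → Prop) (hP : LocalCondition P) :
    ∃ δ : ℤ → ℝ, (∀ u, 0 ≤ δ u) ∧ (∀ u, 0 < δ u ↔ ∃ X, (Family a₀ b P u X).Nonempty) ∧
      (∀ u, HasDensity (Family a₀ b P u) (ExtLE K) (δ u)) ∧
      HasDensity (fun X => {χ ∈ ExtLE K X | P χ}) (ExtLE K) (∑ᶠ u, δ u) ∧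
      ((∀ χ, P χ) → ∑ᶠ u, δ u = 1) ∧
      (∀ s : ℕ, HasDensity (fun X => {χ ∈ ExtLE K X | P χ ∧ ∀ a : K, ext a = χ →
        (Selmer ((a₀ + a) ^ 2) (b ^ 2)).ncard = 2 ^ (s + 1)}) (ExtLE K) (mixture δ s)) ∧
      HasSum (mixture δ) (∑ᶠ u, δ u) := by
  obtain ⟨δ, h0, h1, h2, h3, h4, h5⟩ := dens hK a₀ b hb P hP
  refine ⟨δ, h0, h1, h2, h3, fun hall => ?_, h4, h5⟩
  have hT : LocalCondition (fun _ : Ext K => True) := ⟨∅, fun _ _ _ _ => trivial⟩
  obtain ⟨C, hC⟩ := Pool.Agent.H467.PU.Asmw.allU (k := k) (K := K) hK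
  obtain ⟨⟨c, hc, g1⟩, -⟩ := law hK a₀ b hb (fun _ => True) hT 0 (zero_ne hK a₀ b hb)
  refine tendsto_nhds_unique h3 (tendsto_const_nhds.congr' ?_)
  filter_upwards [g1, eventually_gt_atTop 0] with X g2 g3
  have g4 : ((Family a₀ b (fun _ => True) 0 X).ncard : ℝ) ≤ ((ExtLE K X).ncard : ℝ) := by
    have g5 := Set.ncard_le_ncard (s := Family a₀ b (fun _ => True) 0 X) (t := ExtLE K X)
      (fun χ h => h.1) (hC X).1
    exact_mod_cast g5
  have g5 : (0 : ℝ) < X := by exact_mod_cast g3
  have g6 : 0 < ((ExtLE K X).ncard : ℝ) := lt_of_lt_of_le (mul_pos hc g5) (g2.trans g4)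
  have g7 : {χ ∈ ExtLE K X | P χ} = ExtLE K X := by
    ext χ
    exact and_iff_left (hall χ)
  rw [g7, div_self g6.ne']

/-- The proportion of the twists of rank zero among all twists. -/
theorem zero_share {k K : Type} [Field k] [Finite k] [CharP k 2] [Field K] [CharP K 2]
    [Algebra k K] (hK : IsFF k K) (a₀ b : K) (hb : b ≠ 0) (δ₀ : ℝ) (hδ : 0 < δ₀)
    (hd : HasDensity (Family a₀ b (fun _ => True) 0) (ExtLE K) δ₀) (c : ℝ)
    (hc : c < δ₀ * prob 0 0) : AtLeastShare (fun X => {χ ∈ ExtLE K X | ∀ a : K, ext a = χ →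
      RankZero (curve (a₀ + a) b)}) (ExtLE K) c := by
  obtain ⟨C, hC⟩ := Pool.Agent.H467.PU.Asmw.allU (k := k) (K := K) hK
  have hp0 : (0 : ℝ) < prob 0 0 := by
    have := Pool.Agent.H467.PG.Pnr.pnr.2.1
    unfold Pool.Agent.H467.PG.alp at this
    have h2 : (288 / 1000 : ℝ) < prob 0 0 := by
      unfold prob
      simpa using this
    exact lt_trans (by norm_num) h2
  have hT : LocalCondition (fun _ : Ext K => True) := ⟨∅, fun _ _ _ _ => trivial⟩
  obtain ⟨c', hc'⟩ : ∃ c', c' = max c 0 := ⟨_, rfl⟩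
  have h1 : c' < δ₀ * prob 0 0 := by
    rw [hc']
    exact max_lt hc (mul_pos hδ hp0)
  have h2 : 0 ≤ c' := by rw [hc']; exact le_max_right _ _
  obtain ⟨c₁, h3, h4⟩ := exists_between (show c' / δ₀ < prob 0 0 by
    rw [div_lt_iff₀ hδ, mul_comm]
    exact h1)
  have h5 : 0 < c₁ := lt_of_le_of_lt (div_nonneg h2 hδ.le) h3
  have h6 : c' / c₁ < δ₀ := by
    rw [div_lt_iff₀ h5]
    rw [div_lt_iff₀ hδ] at h3
    linarith
  filter_upwards [share hK a₀ b hb (fun _ => True) hT (zero_ne hK a₀ b hb) c₁ h4,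
    hd.eventually (lt_mem_nhds h6)] with X h7 h8
  have h9 : ({χ ∈ Family a₀ b (fun _ => True) 0 X | ∀ a : K, ext a = χ →
        RankZero (curve (a₀ + a) b)}.ncard : ℝ) ≤
      ({χ ∈ ExtLE K X | ∀ a : K, ext a = χ → RankZero (curve (a₀ + a) b)}.ncard : ℝ) := by
    have h10 := Set.ncard_le_ncard (s := {χ ∈ Family a₀ b (fun _ => True) 0 X | ∀ a : K,
        ext a = χ → RankZero (curve (a₀ + a) b)})
      (t := {χ ∈ ExtLE K X | ∀ a : K, ext a = χ → RankZero (curve (a₀ + a) b)})
      (fun χ h => ⟨h.1.1, h.2⟩) ((hC X).1.subset fun χ h => h.1)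
    exact_mod_cast h10
  refine le_trans ?_ (h7.trans h9)
  have h10 : (0 : ℝ) ≤ ((ExtLE K X).ncard : ℝ) := Nat.cast_nonneg _
  have h11 : c * ((ExtLE K X).ncard : ℝ) ≤ c' * ((ExtLE K X).ncard : ℝ) :=
    mul_le_mul_of_nonneg_right (by rw [hc']; exact le_max_left _ _) h10
  refine h11.trans ?_
  rcases h10.eq_or_lt with h12 | h12
  · rw [← h12, mul_zero]
    exact mul_nonneg h5.le (Nat.cast_nonneg _)
  · rw [lt_div_iff₀ h12, div_mul_eq_mul_div, div_lt_iff₀ h5] at h8
    linarith

end aux

/-- **Theorem.** Let `K` be a global function field of characteristic two, `k` a finite field contained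
in `K`, and `a₀, b ∈ K`, `b ≠ 0`. -/
theorem result (k K : Type) [Field k] [Finite k] [CharP k 2] [Field K] [CharP K 2] [Algebra k K]
    (hK : IsFF k K) (a₀ b : K) (hb : b ≠ 0) :
    -- (0) the local images are finite, almost all have two elements, the excess is bounded, and
    -- depends only on the local classes at the places at which `b` is not a unit
    (∀ a : K, ∀ v : Place K, ∃ n : ℕ, (localImage v (a ^ 2) (b ^ 2)).ncard = 2 ^ n) ∧
    (∀ a : K, {v : Place K | (localImage v (a ^ 2) (b ^ 2)).ncard ≠ 2}.Finite) ∧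
    (∃ N : ℤ, ∀ a : K, |excess a b| ≤ N) ∧
    (∀ a a' : K, (∀ v : Place K, v.1 b ≠ 1 → ∃ z : Cm v.1, toCompletion v (a + a') = z ^ 2 + z) →
      excess a b = excess a' b) ∧
    -- (1) the law of the Selmer group of the Verschiebung in every family given by local conditions
    (∃ C : ℝ, ∀ X : ℕ, (ExtLE K X).Finite ∧ ((ExtLE K X).ncard : ℝ) ≤ C * X) ∧
    (∀ P : Ext K → Prop, LocalCondition P → ∀ u : ℤ, (∃ X, (Family a₀ b P u X).Nonempty) →
      (∃ c : ℝ, 0 < c ∧ ∀ᶠ X : ℕ in atTop, c * (X : ℝ) ≤ ((Family a₀ b P u X).ncard : ℝ)) ∧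
      ∀ r s : ℕ, (s : ℤ) = r + u →
        Tendsto (fun X : ℕ => ((SelmerFamily a₀ b P u (2 ^ (s + 1)) X).ncard : ℝ) /
          ((Family a₀ b P u X).ncard : ℝ)) atTop (nhds (prob s r))) ∧
    (∀ s r : ℕ, prob s r = prob r s) ∧ (∀ u : ℕ, HasSum (fun r => prob (r + u) r) 1) ∧
    -- (2) the densities of the families, and the law of the Selmer group for all twists
    (∀ P : Ext K → Prop, LocalCondition P → ∃ δ : ℤ → ℝ, (∀ u, 0 ≤ δ u) ∧
      (∀ u, 0 < δ u ↔ ∃ X, (Family a₀ b P u X).Nonempty) ∧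
      (∀ u, HasDensity (Family a₀ b P u) (ExtLE K) (δ u)) ∧
      HasDensity (fun X => {χ ∈ ExtLE K X | P χ}) (ExtLE K) (∑ᶠ u, δ u) ∧
      ((∀ χ, P χ) → ∑ᶠ u, δ u = 1) ∧
      (∀ s : ℕ, HasDensity (fun X => {χ ∈ ExtLE K X | P χ ∧ ∀ a : K, ext a = χ →
        (Selmer ((a₀ + a) ^ 2) (b ^ 2)).ncard = 2 ^ (s + 1)}) (ExtLE K) (mixture δ s)) ∧
      HasSum (mixture δ) (∑ᶠ u, δ u)) ∧
    -- (3) the rank of one curve, and the curves with the smallest Selmer groups
    (∀ (a : K) (r s : ℕ), (s : ℤ) = r + excess a b →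
      (Selmer (a ^ 2) (b ^ 2)).ncard = 2 ^ (s + 1) → RankLE (curve a b) (s + r)) ∧
    (∀ a : K, (¬ ∃ z : K, a = z ^ 2 + z) → excess a b = 0 → (Selmer (a ^ 2) (b ^ 2)).ncard = 2 →
      RankZero (curve a b)) ∧
    -- (4) the tail: the proportion of the twists of rank larger than `n`
    (∃ C : ℝ, ∀ n : ℕ, AtLeastShare (fun X => {χ ∈ ExtLE K X | ∀ a : K, ext a = χ →
      RankLE (curve (a₀ + a) b) n}) (ExtLE K) (1 - C * (1 / 2) ^ (n ^ 2 / 4))) ∧
    -- (5) the twists of rank zero
    (288 / 1000 : ℝ) < prob 0 0 ∧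
    (∀ P : Ext K → Prop, LocalCondition P → (∃ X, (Family a₀ b P 0 X).Nonempty) →
      ∀ c : ℝ, c < prob 0 0 → AtLeastShare (fun X => {χ ∈ Family a₀ b P 0 X | ∀ a : K,
        ext a = χ → RankZero (curve (a₀ + a) b)}) (Family a₀ b P 0) c) ∧
    (∃ δ₀ : ℝ, 0 < δ₀ ∧ HasDensity (Family a₀ b (fun _ => True) 0) (ExtLE K) δ₀ ∧
      ∀ c : ℝ, c < δ₀ * prob 0 0 → AtLeastShare (fun X => {χ ∈ ExtLE K X | ∀ a : K, ext a = χ →
        RankZero (curve (a₀ + a) b)}) (ExtLE K) c) ∧
    -- (6) balanced curves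
    (∀ a b' : K, b' ≠ 0 → (∀ v : Place K, BalancedAt v a b ∧ BalancedAt v a b') →
      excess a b = 0 ∧ Selmer (a ^ 2) (b ^ 2) = Selmer (a ^ 2) (b' ^ 2)) := by
  obtain ⟨F⟩ := Pool.Agent.H467.PG.Fin.hGF k K hK
  have hnc : ∀ (a : K) (v : Place K), (localImage v (a ^ 2) (b ^ 2)).ncard =
      2 ^ Pool.Agent.H467.PU.Asmw.dmn (K := K) b v (Pool.Agent.H467.PG.mkq a) := fun a v => by
    rw [localImage_eq]
    exact Pool.Agent.H467.PU.Asmw.ncard_LI F a b hb v
  have hp := Pool.Agent.H467.PU.Pnu.pnu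
  refine ⟨fun a v => ⟨_, hnc a v⟩, fun a => ?_, ?_, ?_, ?_, fun P hP u hne => law hK a₀ b hb P hP u hne,
    hp.2.1, hp.2.2.2, fun P hP => dens' hK a₀ b hb P hP, ?_,
    fun a ha hx h2 => rankZero_of hK a b hb ha hx h2, tail hK a₀ b hb, ?_,
    fun P hP hne c hc => share hK a₀ b hb P hP hne c hc, ?_,
    fun a b' hb' hbal => ⟨excess_bal hK a b hb fun v => (hbal v).1, ?_⟩⟩
  · obtain ⟨S, -, -, -, hS⟩ := Pool.Agent.H467.PU.Asmw.S_ex F a b hb ∅
    refine (Finset.finite_toSet S).subset fun v hv => ?_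
    by_contra h
    apply hv
    rw [hnc, Pool.Agent.H467.PU.Asmw.dmn_bal Pool.Agent.H467.PU.Finw.hLWX v
      (Pool.Agent.H467.PG.Asm.fin_res F.R v) hb (Or.inl (hS v h)), pow_one]
  · obtain ⟨N, hN⟩ := Pool.Agent.H467.PU.Asmw.exc_bdd F b hb
    refine ⟨N, fun a => ?_⟩
    rw [excess_eq]
    exact abs_le.2 (hN a)
  · intro a a' h
    rw [excess_eq, excess_eq]
    exact Pool.Agent.H467.PU.Asmw.exc_loc F a a' b hb h
  · exact Pool.Agent.H467.PU.Asmw.allU (k := k) (K := K) hK
  · intro a r s hrs h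
    rw [excess_eq] at hrs
    rw [selmer_Sg] at h
    exact Pool.Agent.H467.PU.Asmw.rank_one (k := k) Pool.Agent.H467.PU.Finw.hHTT
      Pool.Agent.H467.PU.Finw.hRKF hK a b hb r s hrs h
  · have := Pool.Agent.H467.PG.Pnr.pnr.2.1
    unfold Pool.Agent.H467.PG.alp at this
    unfold prob
    simpa using this
  · obtain ⟨δ, -, h1, h2, -⟩ := dens hK a₀ b hb (fun _ => True) ⟨∅, fun _ _ _ _ => trivial⟩
    have h3 := (h1 0).2 (zero_ne hK a₀ b hb)
    exact ⟨δ 0, h3, h2 0, fun c hc => zero_share hK a₀ b hb (δ 0) h3 (h2 0) c hc⟩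
  · rw [selmer_SV hK a b hb fun v => (hbal v).1, selmer_SV hK a b' hb' fun v => (hbal v).2]

end Pool.Agent.Results.MP_ae0bd0_nt.CompleteSelmerLawOfAllTwists
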