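import Pool.Agent.H454.QC.Law
import Pool.Agent.H454.QC.Kum
import Pool.Graph.R_pool_sql_team_seeded_1acbe0a2.Y696.XL.Rank

/-!
# The rank conjecture for `y² + y = x³` over the cubic subfields of almost every `K(∛π₀, …, ∛π_m)`

`K = ℚ(√-3)` is the field of third roots of unity and `E` is the curve `y² + y = x³`. Let
`π₀, …, π_m` be distinct primes of `K`, all `1` modulo `3`, not all of norm `1` modulo `9`. The cubic
extensions of `K` inside `K(∛π₀, …, ∛π_m)` are the fields `F = K(∛D)`, `D = ∏ πᵢ ^ eᵢ` with `e ≠ 0` in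
`{0, 1, 2} ^ (m + 1)`, where `e` and `-e` give the same field. Exactly `2 · 3 ^ m` exponents `e` give a
`D` whose norm is not `1` modulo `9`, so we get `3 ^ m` fields.

The theorem: for almost all tuples of primes of norm at most `X` (all but a proportion
`12112 / ε² (23/27)^(m+1)`, for all `X ≥ X₀(m)`), among these `3 ^ m` cubic subfields of the one field
`K(∛π₀, …, ∛π_m)`
* at least the share `0.639… - ε` consists of fields `F` for which `E(F)` is finite, the entire function
  `L(E/F, s)` does not vanish at `1` (so the equality of Q1 holds), and the `3`-primary part of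
  `Ш(E/F)` is killed by `3`;
* for each `r` the share of the fields with rank of `E(F)` at most `4 r` is at least
  `p_0 + ⋯ + p_r - ε`;
* the average rank is at most `1.618 + ε`.

Here the primes are fixed and only the exponents vary: this is a law inside one extension with group
`(ℤ/3)^(m+1)` of `K`. The earlier results (`CubicKummerExtensions` and the library projects XL, CTK, CTE)
average over all squarefree `D` of norm at most `X`.

The proof (`Pool/Agent/H454/QC`). The mean square deviation of the shares of the Selmer orders inside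
the groups of twists is that of `TwistGroups` (for disjoint sets of primes); we sum it with weights
`2 ^ r`, which controls the mean of the ranks, and average over the colourings of the primes in order to
treat all tuples of distinct primes. For a general exponent `e` (also with entries `2`, where `D` is
not squarefree) we prove the factorization of `L(E/F, s)` into Hecke `L`-functions at all places, and
the bound for the rank over `F`, following the library (CTE) and `H462/T1`, which treat squarefree `D`.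
-/

set_option autoImplicit false

namespace Pool.Agent.Results.MP_ae0bd0_nt.QuenchedCubicSubfields

open NumberField
open Pool.Agent.TH841.NF.D (Sha)
open scoped Classical

/-- The curve `E : y² + y = x³` over `F`. -/
def curve (F : Type) [Field F] : WeierstrassCurve F := ⟨0, 0, 1, 0, 0⟩

/-- The rank of `E(F)`. -/
noncomputable def rank (F : Type) [Field F] : ℕ := Module.finrank ℤ (curve F).toAffine.Point

/-- `F` is a cubic extension of `K` which contains a cube root of `D`. -/
def IsRootField {K : Type} [Field K] [NumberField K] (D : 𝓞 K) (F : Type) [Field F] [Algebra K F] :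
    Prop :=
  Module.finrank K F = 3 ∧ ∃ θ : F, θ ^ 3 = algebraMap K F D

/-- `L(E/F, s)` converges absolutely for `Re s > 3/2` and has an analytic continuation to the whole
plane. -/
def EntireLSeries (F : Type) [Field F] [NumberField F] : Prop :=
  ∃ Φ : ℂ → ℂ, Differentiable ℂ Φ ∧ ∀ s : ℂ, (3 / 2 : ℝ) < s.re →
    LSeriesSummable ((fun n : ℤ => (n : ℂ)) ∘ (curve F).LFunction) s ∧ Φ s = (curve F).LSeries s

/-- `E(F)` is finite and the value of the entire function `L(E/F, s)` at `1` is not zero. -/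
def RankZero (F : Type) [Field F] [NumberField F] : Prop :=
  Finite (curve F).toAffine.Point ∧
  ∃ Φ : ℂ → ℂ, Differentiable ℂ Φ ∧ (∀ s : ℂ, (3 / 2 : ℝ) < s.re → Φ s = (curve F).LSeries s) ∧
    Φ 1 ≠ 0

/-- The assertion of Q1 for `E/F`: if `Φ` is a continuation of `L(E/F, s)` to the whole plane, then the
order of vanishing of `Φ` at `1` is the rank of `E(F)`. -/
def RankEquality (F : Type) [Field F] [NumberField F] : Prop :=
  ∀ Φ : ℂ → ℂ, Differentiable ℂ Φ → (∀ s : ℂ, (3 / 2 : ℝ) < s.re → Φ s = (curve F).LSeries s) →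
    analyticOrderAt Φ 1 = (rank F : ℕ∞)

/-- The `3`-primary part of the Tate-Shafarevich group of `E/F` is killed by `3`. -/
def ShaThree (F : Type) [Field F] [NumberField F] : Prop :=
  ∀ (n : ℕ) (x : Sha (curve F)), 3 ^ n • x = 0 → 3 • x = 0

section
variable {K : Type} [Field K] [NumberField K]

/-- `D = ∏ p i ^ (e i)`, `e i ∈ {0, 1, 2}`. -/
def twist {n : ℕ} (p : Fin n → 𝓞 K) (e : Fin n → ZMod 3) : 𝓞 K := ∏ i, p i ^ (e i).val

/-- The exponents for which the norm of `D` is not `1` modulo `9`. -/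
def Twists {n : ℕ} (p : Fin n → 𝓞 K) : Set (Fin n → ZMod 3) :=
  {e | ¬ (9 : ℤ) ∣ Algebra.norm ℤ (twist p e) - 1}

variable (K) in
/-- The tuples of `m + 1` distinct prime elements of `𝓞 K` that are `1` modulo `3` and of norm at
most `X`, such that some norm is not `1` modulo `9`. -/
def Tuples (m X : ℕ) : Set (Fin (m + 1) → 𝓞 K) :=
  {p | (∀ i, Prime (p i) ∧ (3 : 𝓞 K) ∣ p i - 1 ∧ Algebra.norm ℤ (p i) ≤ X) ∧
    Function.Injective p ∧ ∃ i, ¬ (9 : ℤ) ∣ Algebra.norm ℤ (p i) - 1}

end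

/-- `∏_{i ≥ 0} (1 - 3^{-(2 i + 1)}) / ((3 - 1) (9 - 1) ⋯ (3 ^ r - 1))`. -/
noncomputable def prob (r : ℕ) : ℝ :=
  (∏' i : ℕ, (1 - (1 / 3 : ℝ) ^ (2 * i + 1))) / ∏ i ∈ Finset.range r, ((3 : ℝ) ^ (i + 1) - 1)

section
variable {K : Type} [Field K] [NumberField K]

/-- The law inside the group generated by one tuple `p`, up to `ε`: let `F e` be the field
`K(∛D)`, `D = ∏ p i ^ (e i)`, for each `e` in `Twists p`. (1) `E` has rank zero over `F e`, with the
equality of Q1 and with the `3`-primary part of `Ш` killed by `3`, for at least the share `prob 0 - ε` of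
the `e`. (2) The rank over `F e` is at most `4 r` for at least the share `∑_{s ≤ r} prob s - ε` of the
`e`. (3) The mean of the ranks is at most `1.618 + ε`. -/
def Law {n : ℕ} (p : Fin n → 𝓞 K) (ε : ℝ) : Prop :=
  ∀ (F : (Fin n → ZMod 3) → Type) [∀ e, Field (F e)] [∀ e, NumberField (F e)]
    [∀ e, Algebra K (F e)], (∀ e ∈ Twists p, IsRootField (twist p e) (F e)) →
    (prob 0 - ε) * ((Twists p).ncard : ℝ) ≤
      ({e | e ∈ Twists p ∧ (RankZero (F e) ∧ RankEquality (F e) ∧ ShaThree (F e))}.ncard : ℝ) ∧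
    (∀ r : ℕ, (∑ s ∈ Finset.range (r + 1), prob s - ε) * ((Twists p).ncard : ℝ) ≤
      ({e | e ∈ Twists p ∧ rank (F e) ≤ 4 * r}.ncard : ℝ)) ∧
    ∑ᶠ e ∈ Twists p, (rank (F e) : ℝ) ≤ (1.618 + ε) * ((Twists p).ncard : ℝ)

end

lemma rank_eq_zero {A : Type} [AddCommGroup A] [Finite A] : Module.finrank ℤ A = 0 := by
  rw [Module.finrank_eq_zero_iff_isTorsion]
  intro x
  refine ⟨⟨(addOrderOf x : ℤ), ?_⟩, ?_⟩
  · rw [mem_nonZeroDivisors_iff_ne_zero]
    exact_mod_cast (addOrderOf_pos x).ne'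
  · show ((addOrderOf x : ℕ) : ℤ) • x = 0
    rw [natCast_zsmul, addOrderOf_nsmul_eq_zero]

lemma RankZero.equality {F : Type} [Field F] [NumberField F] (h : RankZero F) :
    RankEquality F := by
  obtain ⟨hfin, Φ, hΦ, hL, hne⟩ := h
  intro Ψ hΨ hΨL
  have hopen : IsOpen {s : ℂ | (3 / 2 : ℝ) < s.re} := isOpen_lt continuous_const Complex.continuous_re
  have h2 : (2 : ℂ) ∈ {s : ℂ | (3 / 2 : ℝ) < s.re} := by
    show (3 / 2 : ℝ) < (2 : ℂ).re
    norm_num
  have heq : Ψ = Φ := by
    refine AnalyticOnNhd.eq_of_eventuallyEq (z₀ := 2) (fun s _ => hΨ.analyticAt s)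
      (fun s _ => hΦ.analyticAt s) ?_
    filter_upwards [hopen.mem_nhds h2] with s hs
    rw [hΨL s hs, hL s hs]
  unfold rank
  rw [rank_eq_zero, heq, (hΦ.analyticAt 1).analyticOrderAt_eq_zero.2 hne]
  rfl

section
variable {K : Type} [Field K] [NumberField K] [IsCyclotomicExtension {3} ℚ K]

lemma tuples_TU (m X : ℕ) : Tuples K m X =
    ((Pool.Agent.H454.QC.TU K m X : Finset (Fin (m + 1) → 𝓞 K)) : Set (Fin (m + 1) → 𝓞 K)) := by
  ext p
  rw [Finset.mem_coe, Pool.Agent.H454.QC.mem_TU]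
  rfl

lemma one_le {m X : ℕ} {p : Fin (m + 1) → 𝓞 K} (hp : p ∈ Tuples K m X) : 1 ≤ X := by
  have h1 := (hp.1 0).2.2
  have h2 := Pool.Agent.H454.QC.norm_pos (hp.1 0).1.ne_zero
  omega

theorem each {m X : ℕ} {p : Fin (m + 1) → 𝓞 K} (hp : p ∈ Tuples K m X)
    {e : Fin (m + 1) → ZMod 3} (he : e ∈ Twists p) :
    (∃ (F : Type) (_ : Field F) (_ : NumberField F) (_ : Algebra K F), IsRootField (twist p e) F) ∧
    ∀ (F : Type) [Field F] [NumberField F] [Algebra K F], IsRootField (twist p e) F →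
      EntireLSeries F ∧ Module.Finite ℤ (curve F).toAffine.Point ∧
      ∀ r : ℕ, (Pool.Agent.R338.CK.XL6.SelK ((twist p e : 𝓞 K) : K)).ncard = 3 ^ (r + 1) →
        rank F ≤ 4 * r ∧ (r = 0 → RankZero F ∧ RankEquality F ∧ ShaThree F) := by
  have hX := one_le hp
  rw [tuples_TU, Finset.mem_coe] at hp
  obtain ⟨c, hc⟩ := Pool.Agent.H454.QC.exists_cl hp
  obtain ⟨⟨F, f1, f2, f3, θ, hd, hθ⟩, h2⟩ :=
    Pool.Agent.H454.QC.field (Pool.Agent.H454.QC.cl_sets hX c) hc he
  refine ⟨⟨F, f1, f2, f3, hd, θ, hθ⟩, fun F _ _ _ hF => ?_⟩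
  obtain ⟨hd, θ, hθ⟩ := hF
  obtain ⟨k1, k2, k3, k4⟩ := h2 F θ hd hθ
  refine ⟨k1, k2, fun r hr => ⟨k3 r hr, ?_⟩⟩
  rintro rfl
  obtain ⟨⟨Φ, l1, l2, l3⟩, l4, l5⟩ := k4 hr
  have hz : RankZero F := ⟨l4, Φ, l1, fun s hs => (l2 s hs).2, l3⟩
  exact ⟨hz, hz.equality, l5⟩

end

/-- **Main theorem.** -/
theorem result :
    -- (1) the fields `K(∛D)` of a tuple
    (∀ (K : Type) [Field K] [NumberField K] [IsCyclotomicExtension {3} ℚ K] (m X : ℕ),
      ∀ p ∈ Tuples K m X, (Twists p).ncard = 2 * 3 ^ m ∧ ∀ e ∈ Twists p, e ≠ -e ∧ -e ∈ Twists p ∧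
        (∃ (F : Type) (_ : Field F) (_ : NumberField F) (_ : Algebra K F),
          IsRootField (twist p e) F) ∧
        ∀ (F : Type) [Field F] [NumberField F] [Algebra K F], IsRootField (twist p e) F →
          (∀ e' ∈ Twists p, IsRootField (twist p e') F ↔ e' = e ∨ e' = -e) ∧
          EntireLSeries F ∧ Module.Finite ℤ (curve F).toAffine.Point) ∧
    -- (2) the law for almost all tuples
    (∀ m : ℕ, ∃ X₀ : ℕ, ∀ X : ℕ, X₀ ≤ X → ∀ (K : Type) [Field K] [NumberField K]
      [IsCyclotomicExtension {3} ℚ K],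
      ((X : ℝ) / (16 * Real.log X)) ^ (m + 1) ≤ ((Tuples K m X).ncard : ℝ) ∧
      ∀ ε : ℝ, 0 < ε → ({p | p ∈ Tuples K m X ∧ ¬ Law p ε}.ncard : ℝ) ≤
        12112 / ε ^ 2 * (23 / 27) ^ (m + 1) * ((Tuples K m X).ncard : ℝ)) ∧
    -- (3) the constants
    (0.639 < prob 0 ∧ prob 0 < 0.6391 ∧ HasSum prob 1) ∧
    ∀ r : ℕ, 1 - 1.5 / 3 ^ ((r + 1) * (r + 2) / 2) ≤ ∑ s ∈ Finset.range (r + 1), prob s := by
  refine ⟨fun K _ _ _ m X p hp => ?_, fun m => ?_, Pool.Agent.H454.QC.const_X, fun r => ?_⟩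
  · have hX := one_le hp
    have hp' := hp
    rw [tuples_TU, Finset.mem_coe] at hp'
    obtain ⟨c, hc⟩ := Pool.Agent.H454.QC.exists_cl hp'
    have hS := Pool.Agent.H454.QC.cl_sets (K := K) (m := m) hX c
    obtain ⟨C, -, hC⟩ := Pool.Agent.H454.TG.main
    obtain ⟨h1, -, -, -⟩ := hC K m _ _ X hS
    refine ⟨(h1 p hc).1, fun e he => ?_⟩
    have h0 := Pool.Agent.H454.QC.grp_ne he
    refine ⟨fun h => h0 ?_, Pool.Agent.H454.QC.grp_neg hS hc he, (each hp he).1,
      fun F _ _ _ hF => ⟨fun e' he' => ?_, ((each hp he).2 F hF).1, ((each hp he).2 F hF).2.1⟩⟩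
    · funext i
      have h2 := congrFun h i
      have key : ∀ a : ZMod 3, a = -a → a = 0 := by decide
      exact key _ h2
    · have h2 := Pool.Agent.H454.QC.same_field hS hc h0 (Pool.Agent.H454.QC.grp_ne he') F hF.1 hF.2
      exact ⟨fun h => h2.1 h.2, fun h => ⟨hF.1, h2.2 h⟩⟩
  · obtain ⟨X₀, h0⟩ := Pool.Agent.H454.QC.mean_final m
    refine ⟨X₀, fun X hX K _ _ _ => ?_⟩
    obtain ⟨h1, h2⟩ := h0 X hX
    obtain ⟨h3, h4⟩ := h2 K
    have hN : ((Tuples K m X).ncard : ℝ) = ((Pool.Agent.H454.QC.TU K m X).card : ℝ) := by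
      rw [tuples_TU, Set.ncard_coe_finset]
    rw [hN]
    refine ⟨h3, fun ε hε => ?_⟩
    have h5 := Pool.Agent.H454.QC.bad_count
      (fun p _ => Pool.Agent.H454.QC.dv_nonneg m (Pool.Agent.H454.QC.xd p)) h4 hε
    have h6 : ({p | p ∈ Tuples K m X ∧ ¬ Law p ε}.ncard : ℝ) ≤
        (((Pool.Agent.H454.QC.TU K m X).filter fun p =>
          ε / 4 < Pool.Agent.H454.QC.dv m (Pool.Agent.H454.QC.xd p)).card : ℝ) := by
      rw [← Set.ncard_coe_finset]
      refine Nat.cast_le.2 (Set.ncard_le_ncard ?_ (Finset.finite_toSet _))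
      rintro p ⟨hp, hL⟩
      rw [Finset.coe_filter, Set.mem_ofPred_eq]
      have hp' := hp
      rw [tuples_TU, Finset.mem_coe] at hp'
      refine ⟨hp', ?_⟩
      by_contra h7
      apply hL
      intro F _ _ _ hF
      have h8 := Pool.Agent.H454.QC.tuple_law (one_le hp) hp' (not_lt.1 h7)
        (fun e => rank (F e)) (fun e => RankZero (F e) ∧ RankEquality (F e) ∧ ShaThree (F e))
        (fun e he => ((each hp he).2 (F e) (hF e he)).2.2)
      obtain ⟨k1, k2, k3⟩ := h8
      have hn : (0 : ℝ) ≤ ((Twists p).ncard : ℝ) := Nat.cast_nonneg _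
      refine ⟨le_trans ?_ k1, fun r => le_trans ?_ (k2 r), k3.trans ?_⟩
      · exact mul_le_mul_of_nonneg_right
          (show prob 0 - ε ≤ prob 0 - ε / 4 by linarith) hn
      · exact mul_le_mul_of_nonneg_right
          (show ∑ s ∈ Finset.range (r + 1), prob s - ε ≤
            ∑ s ∈ Finset.range (r + 1), prob s - ε / 4 by linarith) hn
      · exact mul_le_mul_of_nonneg_right
          (show (1.618 + 4 * (ε / 4) : ℝ) ≤ 1.618 + ε by linarith) hn
    refine h6.trans (h5.trans (le_of_eq ?_))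
    ring
  · have h := Pool.Agent.XL6.tail_le r
    have h2 : ∑ s ∈ Finset.range (r + 1), Pool.Agent.XL6.prob s =
        ∑ s ∈ Finset.range (r + 1), prob s := rfl
    rw [h2] at h
    linarith

end Pool.Agent.Results.MP_ae0bd0_nt.QuenchedCubicSubfields
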